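import Pool.Agent.Lib.MP_146384_al.LinAlg

set_option autoImplicit false

namespace Pool.Agent.Lib.MP_146384_al

open Module Function

/-- Finite-dimensional modules, bundled. -/
structure FM (k Λ : Type) [Field k] [Ring Λ] [Algebra k Λ] : Type 1 where
  T : Type
  [g : AddCommGroup T]
  [mL : Module Λ T]
  [mK : Module k T]
  [st : IsScalarTower k Λ T]
  [fd : FiniteDimensional k T]

attribute [instance] FM.g FM.mL FM.mK FM.st FM.fd

variable {k Λ : Type} [Field k] [Ring Λ] [Algebra k Λ]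

instance homFin (M N : FM k Λ) : Module.Finite k (M.T →ₗ[Λ] N.T) :=
  Module.Finite.of_injective (LinearMap.restrictScalarsₗ k Λ M.T N.T k)
    (LinearMap.restrictScalars_injective k)

instance (M : FM k Λ) : IsNoetherian Λ M.T := isNoetherian_of_tower k inferInstance
instance (M : FM k Λ) : IsArtinian Λ M.T := isArtinian_of_tower k inferInstance

abbrev FM.sub (M : FM k Λ) (X : Submodule Λ M.T) : FM k Λ :=
  { T := X, fd := Module.Finite.of_injective (X.subtype.restrictScalars k) Subtype.val_injective }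

abbrev FM.quot (M : FM k Λ) (X : Submodule Λ M.T) : FM k Λ :=
  { T := M.T ⧸ X, fd := Module.Finite.of_surjective (X.mkQ.restrictScalars k) X.mkQ_surjective }

abbrev FM.prod (M N : FM k Λ) : FM k Λ := { T := M.T × N.T }

noncomputable abbrev FM.dim (M : FM k Λ) : ℕ := finrank k M.T

theorem dim_add (M : FM k Λ) (X : Submodule Λ M.T) : (M.quot X).dim + (M.sub X).dim = M.dim := by
  have := (X.mkQ.restrictScalars k).finrank_range_add_finrank_ker
  rw [LinearMap.range_eq_top.2 (show Surjective (X.mkQ.restrictScalars k) from X.mkQ_surjective),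
    finrank_top] at this
  unfold FM.dim
  rw [← this]
  congr 1
  refine LinearEquiv.finrank_eq ?_
  exact LinearEquiv.ofBijective
    (LinearMap.codRestrict _ (X.subtype.restrictScalars k) (fun x => by simp))
    ⟨fun a b h => Subtype.ext (congrArg (fun z : LinearMap.ker (X.mkQ.restrictScalars k) => (z : M.T)) h),
      fun ⟨y, hy⟩ => ⟨⟨y, by simpa using hy⟩, rfl⟩⟩

theorem dim_pos (M : FM k Λ) [Nontrivial M.T] : 0 < M.dim := finrank_pos

theorem dim_le_of_surj {M N : FM k Λ} (q : M.T →ₗ[Λ] N.T) (hq : Surjective q) : N.dim ≤ M.dim :=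
  LinearMap.finrank_le_finrank_of_surjective (f := q.restrictScalars k) hq

theorem dim_le_of_inj {M N : FM k Λ} (q : M.T →ₗ[Λ] N.T) (hq : Injective q) : M.dim ≤ N.dim :=
  LinearMap.finrank_le_finrank_of_injective (f := q.restrictScalars k) hq

theorem dim_quot_lt (M : FM k Λ) {X : Submodule Λ M.T} (hX : X ≠ ⊥) : (M.quot X).dim < M.dim := by
  have := dim_add M X
  have : Nontrivial (M.sub X).T := Submodule.nontrivial_iff_ne_bot.2 hX
  have := dim_pos (M.sub X)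
  omega

theorem dim_sub_lt (M : FM k Λ) {X : Submodule Λ M.T} (hX : X ≠ ⊤) : (M.sub X).dim < M.dim := by
  have := dim_add M X
  have : Nontrivial (M.quot X).T := Submodule.Quotient.nontrivial_iff.2 hX
  have := dim_pos (M.quot X)
  omega

theorem bij_of_surj {M : FM k Λ} {φ : M.T →ₗ[Λ] M.T} (h : Surjective φ) : Bijective φ :=
  ⟨(LinearMap.injective_iff_surjective (f := φ.restrictScalars k)).2 h, h⟩

/-- A brick. -/
def IsBrick (M : FM k Λ) : Prop :=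
  Nontrivial M.T ∧ ∀ φ : M.T →ₗ[Λ] M.T, φ ≠ 0 → Bijective φ

/-- Finitely many bricks in each bounded dimension. -/
def BD (k Λ : Type) [Field k] [Ring Λ] [Algebra k Λ] : Prop :=
  ∀ n : ℕ, ∃ (ι : Type) (_ : Fintype ι) (S : ι → FM k Λ),
    ∀ N : FM k Λ, IsBrick N → N.dim ≤ n → ∃ s, Nonempty (N.T ≃ₗ[Λ] (S s).T)

/-- A map between projective modules. -/
structure Pres (k Λ : Type) [Field k] [Ring Λ] [Algebra k Λ] : Type 1 where
  P1 : FM k Λ
  P0 : FM k Λ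
  [pr1 : Module.Projective Λ P1.T]
  [pr0 : Module.Projective Λ P0.T]
  f : P1.T →ₗ[Λ] P0.T

attribute [instance] Pres.pr1 Pres.pr0

abbrev Pres.C (V : Pres k Λ) : FM k Λ := V.P0.quot (LinearMap.range V.f)

/-- Precomposition. -/
def pre {A B : FM k Λ} (f : A.T →ₗ[Λ] B.T) (M : FM k Λ) :
    (B.T →ₗ[Λ] M.T) →ₗ[k] (A.T →ₗ[Λ] M.T) where
  toFun π := π ∘ₗ f
  map_add' _ _ := rfl
  map_smul' _ _ := rfl

@[simp] theorem pre_apply {A B : FM k Λ} (f : A.T →ₗ[Λ] B.T) (M : FM k Λ) (π : B.T →ₗ[Λ] M.T) :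
    pre f M π = π ∘ₗ f := rfl

def EZ (V : Pres k Λ) (M : FM k Λ) : Prop :=
  ∀ ψ : V.P1.T →ₗ[Λ] M.T, ∃ π : V.P0.T →ₗ[Λ] M.T, π ∘ₗ V.f = ψ

def HZ (V : Pres k Λ) (M : FM k Λ) : Prop :=
  ∀ π : V.P0.T →ₗ[Λ] M.T, π ∘ₗ V.f = 0 → π = 0

noncomputable def hd (P M : FM k Λ) : ℕ := finrank k (P.T →ₗ[Λ] M.T)

noncomputable def gg (V : Pres k Λ) (M : FM k Λ) : ℤ := (hd V.P0 M : ℤ) - hd V.P1 M

noncomputable def ee (V : Pres k Λ) (M : FM k Λ) : ℕ :=
  finrank k ((V.P1.T →ₗ[Λ] M.T) ⧸ LinearMap.range (pre V.f M))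

theorem gg_eq (V : Pres k Λ) (M : FM k Λ) :
    gg V M = (finrank k (LinearMap.ker (pre V.f M)) : ℤ) - ee V M := by
  have h1 := (pre V.f M).finrank_range_add_finrank_ker
  have h2 := (LinearMap.range (pre V.f M)).finrank_quotient_add_finrank
  unfold gg hd ee
  omega

theorem EZ_iff (V : Pres k Λ) (M : FM k Λ) : EZ V M ↔ ee V M = 0 := by
  unfold ee
  rw [finrank_zero_iff, Submodule.Quotient.subsingleton_iff, LinearMap.range_eq_top]
  rfl

theorem HZ_iff (V : Pres k Λ) (M : FM k Λ) :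
    HZ V M ↔ finrank k (LinearMap.ker (pre V.f M)) = 0 := by
  rw [Submodule.finrank_eq_zero, LinearMap.ker_eq_bot']
  rfl

theorem gg_nonneg {V : Pres k Λ} {M : FM k Λ} (h : EZ V M) : 0 ≤ gg V M := by
  rw [gg_eq, (EZ_iff V M).1 h]; simp

theorem gg_nonpos {V : Pres k Λ} {M : FM k Λ} (h : HZ V M) : gg V M ≤ 0 := by
  rw [gg_eq, (HZ_iff V M).1 h]; simp

theorem HZ_of_gg {V : Pres k Λ} {M : FM k Λ} (h : EZ V M) (h' : gg V M ≤ 0) : HZ V M := by
  rw [gg_eq, (EZ_iff V M).1 h] at h'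
  rw [HZ_iff]; omega

theorem exists_of_gg_pos {V : Pres k Λ} {M : FM k Λ} (h : 0 < gg V M) :
    ∃ π : V.P0.T →ₗ[Λ] M.T, π ∘ₗ V.f = 0 ∧ π ≠ 0 := by
  by_contra hc
  push Not at hc
  have := gg_nonpos (V := V) (M := M) hc
  omega

theorem EZ.of_surj {V : Pres k Λ} {M N : FM k Λ} (h : EZ V M) (q : M.T →ₗ[Λ] N.T)
    (hq : Surjective q) : EZ V N := fun ψ => by
  obtain ⟨ψ', rfl⟩ := Module.projective_lifting_property q ψ hq
  obtain ⟨π, rfl⟩ := h ψ'
  exact ⟨q ∘ₗ π, rfl⟩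

theorem lift_range {P A M : FM k Λ} [Module.Projective Λ P.T] (i : A.T →ₗ[Λ] M.T)
    (ψ : P.T →ₗ[Λ] M.T) (h : ∀ x, ψ x ∈ LinearMap.range i) : ∃ σ : P.T →ₗ[Λ] A.T, i ∘ₗ σ = ψ := by
  obtain ⟨σ, hσ⟩ := Module.projective_lifting_property i.rangeRestrict
    (LinearMap.codRestrict _ ψ h) i.surjective_rangeRestrict
  exact ⟨σ, LinearMap.ext fun x => congrArg Subtype.val (LinearMap.congr_fun hσ x)⟩

theorem EZ.ext {V : Pres k Λ} {A M B : FM k Λ} (hA : EZ V A) (hB : EZ V B) (i : A.T →ₗ[Λ] M.T)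
    (q : M.T →ₗ[Λ] B.T) (hq : Surjective q) (hi : ∀ x, q x = 0 → x ∈ LinearMap.range i) :
    EZ V M := fun ψ => by
  obtain ⟨ρ, hρ⟩ := hB (q ∘ₗ ψ)
  obtain ⟨ρ', rfl⟩ := Module.projective_lifting_property q ρ hq
  obtain ⟨σ, hσ⟩ := lift_range i (ψ - ρ' ∘ₗ V.f) fun x => hi _ (by
    have := LinearMap.congr_fun hρ x
    simp only [LinearMap.comp_apply] at this
    simp [this])
  obtain ⟨π, rfl⟩ := hA σ
  refine ⟨ρ' + i ∘ₗ π, ?_⟩
  rw [LinearMap.add_comp, LinearMap.comp_assoc, hσ]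
  abel

theorem EZ.ext_sub {V : Pres k Λ} {M : FM k Λ} (X : Submodule Λ M.T) (hA : EZ V (M.sub X))
    (hB : EZ V (M.quot X)) : EZ V M :=
  hA.ext hB X.subtype X.mkQ X.mkQ_surjective fun x hx => by simpa using hx

theorem EZ.of_subsingleton (V : Pres k Λ) (M : FM k Λ) [Subsingleton M.T] : EZ V M :=
  fun _ => ⟨0, LinearMap.ext fun _ => Subsingleton.elim _ _⟩

theorem EZ.ker {V : Pres k Λ} {M B : FM k Λ} (hM : EZ V M) (hB : HZ V B) (q : M.T →ₗ[Λ] B.T) :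
    EZ V (M.sub (LinearMap.ker q)) := fun ψ => by
  obtain ⟨ρ, hρ⟩ := hM ((LinearMap.ker q).subtype ∘ₗ ψ)
  have h0 : q ∘ₗ ρ = 0 := hB _ (by
    rw [LinearMap.comp_assoc, hρ]
    ext x
    exact (ψ x).2)
  refine ⟨LinearMap.codRestrict _ ρ fun x => LinearMap.congr_fun h0 x, ?_⟩
  ext x
  exact LinearMap.congr_fun hρ x

theorem HZ.quot {V : Pres k Λ} {M : FM k Λ} (X : Submodule Λ M.T) (hX : EZ V (M.sub X))
    (h : ∀ π : V.P0.T →ₗ[Λ] M.T, π ∘ₗ V.f = 0 → LinearMap.range π ≤ X) : HZ V (M.quot X) := by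
  intro π hπ
  obtain ⟨π', rfl⟩ := Module.projective_lifting_property X.mkQ π X.mkQ_surjective
  obtain ⟨σ, hσ⟩ := hX (LinearMap.codRestrict X (π' ∘ₗ V.f) fun x => by
    simpa using LinearMap.congr_fun hπ x)
  have h1 := h (π' - X.subtype ∘ₗ σ) (by
    ext x
    have := congrArg Subtype.val (LinearMap.congr_fun hσ x)
    simp only [LinearMap.comp_apply, LinearMap.codRestrict_apply] at this
    simp [this])
  ext x
  have h2 : π' x - (σ x : M.T) ∈ X := h1 ⟨x, rfl⟩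
  have h3 : π' x ∈ X := by simpa using X.add_mem h2 (σ x).2
  simpa using h3

/-- The map from the cokernel. -/
def Pres.desc (V : Pres k Λ) {M : FM k Λ} (π : V.P0.T →ₗ[Λ] M.T) (h : π ∘ₗ V.f = 0) :
    V.C.T →ₗ[Λ] M.T :=
  (LinearMap.range V.f).liftQ π (LinearMap.range_le_ker_iff.2 h)

@[simp] theorem Pres.desc_mk (V : Pres k Λ) {M : FM k Λ} (π : V.P0.T →ₗ[Λ] M.T)
    (h : π ∘ₗ V.f = 0) (x : V.P0.T) : V.desc π h (Submodule.Quotient.mk x) = π x := rfl

theorem Pres.mkQ_comp (V : Pres k Λ) : (LinearMap.range V.f).mkQ ∘ₗ V.f = 0 := by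
  ext x; simp

theorem EZ.range {V V' : Pres k Λ} {M : FM k Λ} (h : EZ V' V.C) (π : V.P0.T →ₗ[Λ] M.T)
    (hπ : π ∘ₗ V.f = 0) : EZ V' (M.sub (LinearMap.range π)) := by
  refine h.of_surj (V.desc (M := M.sub (LinearMap.range π)) π.rangeRestrict ?_) ?_
  · ext x
    exact LinearMap.congr_fun hπ x
  · rintro ⟨_, x, rfl⟩
    exact ⟨Submodule.Quotient.mk x, rfl⟩

/-- A minimal quotient with nonvanishing `E` is a brick. -/
theorem exists_brick (V : Pres k Λ) : ∀ (n : ℕ) (X : FM k Λ), X.dim = n → ¬ EZ V X →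
    ∃ (N : FM k Λ) (q : X.T →ₗ[Λ] N.T), Surjective q ∧ IsBrick N ∧ ¬ EZ V N := by
  intro n
  induction n using Nat.strong_induction_on with
  | _ n ih =>
  intro X hn hX
  by_cases hb : IsBrick X
  · exact ⟨X, LinearMap.id, surjective_id, hb, hX⟩
  have hnt : Nontrivial X.T := by
    by_contra h
    rw [not_nontrivial_iff_subsingleton] at h
    exact hX (EZ.of_subsingleton V X)
  obtain ⟨φ, h0, hφ⟩ : ∃ φ : X.T →ₗ[Λ] X.T, φ ≠ 0 ∧ ¬ Bijective φ := by
    by_contra hc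
    push Not at hc
    exact hb ⟨hnt, hc⟩
  have h1 : LinearMap.range φ ≠ ⊥ := fun h => h0 (LinearMap.range_eq_bot.1 h)
  have h2 : LinearMap.range φ ≠ ⊤ := fun h => hφ (bij_of_surj (LinearMap.range_eq_top.1 h))
  by_cases hA : EZ V (X.sub (LinearMap.range φ))
  · have hB : ¬ EZ V (X.quot (LinearMap.range φ)) := fun hB => hX (EZ.ext_sub _ hA hB)
    obtain ⟨N, q, hq, hN⟩ := ih _ (hn ▸ dim_quot_lt X h1) _ rfl hB
    exact ⟨N, q ∘ₗ (LinearMap.range φ).mkQ, hq.comp (Submodule.mkQ_surjective _), hN⟩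
  · obtain ⟨N, q, hq, hN⟩ := ih _ (hn ▸ dim_sub_lt X h2) _ rfl hA
    exact ⟨N, q ∘ₗ φ.rangeRestrict, hq.comp φ.surjective_rangeRestrict, hN⟩

end Pool.Agent.Lib.MP_146384_al
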