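import Mathlib

set_option autoImplicit false

namespace Pool.Agent.Lib.MP_146384_al

/-- A matrix representation whose nonzero endomorphisms are invertible (a brick). -/
def BrickRep {k Λ : Type} [Field k] [Ring Λ] [Algebra k Λ] {n : ℕ}
    (ρ : Λ →ₐ[k] Matrix (Fin n) (Fin n) k) : Prop :=
  ∀ X : Matrix (Fin n) (Fin n) k, (∀ a : Λ, X * ρ a = ρ a * X) → X ≠ 0 → IsUnit X

/-- Some dimension carries infinitely many pairwise non-isomorphic bricks. -/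
def ManyBricks (k Λ : Type) [Field k] [Ring Λ] [Algebra k Λ] : Prop :=
  ∃ n : ℕ, ∀ N : ℕ, ∃ f : Fin N → (Λ →ₐ[k] Matrix (Fin n) (Fin n) k),
    (∀ i : Fin N, BrickRep (f i)) ∧ ∀ i j : Fin N, i ≠ j →
      ¬ ∃ P : Matrix (Fin n) (Fin n) k, IsUnit P ∧ ∀ a : Λ, P * f i a = f j a * P

/-- Bricks of unbounded dimension. -/
def LargeBricks (k Λ : Type) [Field k] [Ring Λ] [Algebra k Λ] : Prop :=
  ∀ B : ℕ, ∃ n : ℕ, B < n ∧ ∃ ρ : Λ →ₐ[k] Matrix (Fin n) (Fin n) k, BrickRep ρ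

/-- `E(f,f) = 0`. -/
def Rigid {Λ P Q : Type} [Ring Λ] [AddCommGroup P] [Module Λ P] [AddCommGroup Q] [Module Λ Q]
    (f : P →ₗ[Λ] Q) : Prop :=
  ∀ g : P →ₗ[Λ] Q, ∃ (a : P →ₗ[Λ] P) (b : Q →ₗ[Λ] Q), g = f ∘ₗ a + b ∘ₗ f

/-- For all finite-dimensional projectives, a general map `P → Q` has `E(f,f) = 0`. -/
def EFinite (k Λ : Type) [Field k] [Ring Λ] [Algebra k Λ] : Prop :=
  ∀ (P Q : Type) [AddCommGroup P] [Module k P] [Module Λ P] [IsScalarTower k Λ P]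
    [AddCommGroup Q] [Module k Q] [Module Λ Q] [IsScalarTower k Λ Q]
    [FiniteDimensional k P] [FiniteDimensional k Q]
    [Module.Projective Λ P] [Module.Projective Λ Q]
    (m : ℕ) (b : Module.Basis (Fin m) k (P →ₗ[Λ] Q)),
    ∃ p : MvPolynomial (Fin m) k, p ≠ 0 ∧
      ∀ x : Fin m → k, MvPolynomial.eval x p ≠ 0 → Rigid (∑ i, x i • b i)

/-- At most two isomorphism classes of simple modules. -/
def TwoSimples (Λ : Type) [Ring Λ] : Prop :=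
  ∀ (S T U : Type) [AddCommGroup S] [Module Λ S] [AddCommGroup T] [Module Λ T]
    [AddCommGroup U] [Module Λ U], IsSimpleModule Λ S → IsSimpleModule Λ T → IsSimpleModule Λ U →
    Nonempty (S ≃ₗ[Λ] T) ∨ Nonempty (S ≃ₗ[Λ] U) ∨ Nonempty (T ≃ₗ[Λ] U)

end Pool.Agent.Lib.MP_146384_al
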