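import Pool.Agent.Lib.MP_146384_al.Rank2
import Pool.Agent.Lib.MP_146384_al.Defs

set_option autoImplicit false

namespace Pool.Agent.Lib.MP_146384_al

open Module Function

variable {k Λ : Type} [Field k] [Ring Λ] [Algebra k Λ]

abbrev FM.reg (k Λ : Type) [Field k] [Ring Λ] [Algebra k Λ] [FiniteDimensional k Λ] : FM k Λ :=
  { T := Λ }

theorem exists_sep {S1 S2 : FM k Λ} (h1 : IsSimpleModule Λ S1.T) (h2 : IsSimpleModule Λ S2.T)
    (hne : IsEmpty (S1.T ≃ₗ[Λ] S2.T)) : ∃ x : Λ, (∀ s : S1.T, x • s = s) ∧ ∀ s : S2.T, x • s = 0 := by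
  have z12 : ∀ φ : S1.T →ₗ[Λ] S2.T, φ = 0 := fun φ =>
    φ.bijective_or_eq_zero.resolve_left fun h => hne.false (LinearEquiv.ofBijective φ h)
  have z21 : ∀ φ : S2.T →ₗ[Λ] S1.T, φ = 0 := fun φ =>
    φ.bijective_or_eq_zero.resolve_left fun h => hne.false (LinearEquiv.ofBijective φ h).symm
  let p : Module.End (Module.End Λ (S1.T × S2.T)) (S1.T × S2.T) :=
    { toFun := fun m => (m.1, 0)
      map_add' := fun a b => by simp
      map_smul' := fun φ m => by
        obtain ⟨a, b⟩ := m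
        have e1 := LinearMap.congr_fun (z12 (LinearMap.snd Λ _ _ ∘ₗ φ ∘ₗ LinearMap.inl Λ _ _)) a
        have e2 := LinearMap.congr_fun (z21 (LinearMap.fst Λ _ _ ∘ₗ φ ∘ₗ LinearMap.inr Λ _ _)) b
        have e3 : φ (a, b) = φ (a, 0) + φ (0, b) := by simp [← map_add]
        simp only [LinearMap.comp_apply, LinearMap.snd_apply, LinearMap.inl_apply,
          LinearMap.zero_apply, LinearMap.fst_apply, LinearMap.inr_apply] at e1 e2
        simp only [Module.End.smul_def, RingHom.id_apply, e3]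
        exact Prod.ext (by simp [e2]) e1.symm }
  obtain ⟨s, hs⟩ := Module.Finite.fg_top (R := k) (M := S1.T × S2.T)
  have hss : IsSemisimpleModule Λ (S1.T × S2.T) := by
    have a := IsSemisimpleModule.sup (IsSemisimpleModule.range (LinearMap.inl Λ S1.T S2.T))
      (IsSemisimpleModule.range (LinearMap.inr Λ S1.T S2.T))
    rw [LinearMap.sup_range_inl_inr] at a
    exact IsSemisimpleModule.congr Submodule.topEquiv.symm
  obtain ⟨x, hx⟩ := jacobson_density p s
  have key : ∀ m : S1.T × S2.T, (m.1, 0) = x • m := by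
    intro m
    induction hs.ge (trivial : m ∈ ⊤) using Submodule.span_induction with
    | mem m hm => exact hx m hm
    | zero => simp [Prod.mk_zero_zero]
    | add a b _ _ ha hb => rw [smul_add, ← ha, ← hb]; simp
    | smul c a _ ha => rw [smul_comm, ← ha]; simp
  exact ⟨x, fun s => (congrArg Prod.fst (key (s, 0))).symm,
    fun s => (congrArg Prod.snd (key (0, s))).symm⟩

theorem hd_reg_pos [FiniteDimensional k Λ] (S : FM k Λ) [Nontrivial S.T] :
    0 < hd (FM.reg k Λ) S := by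
  refine Nat.pos_of_ne_zero fun h => ?_
  obtain ⟨s, hs⟩ := exists_ne (0 : S.T)
  have := LinearMap.congr_fun (hd_eq_zero_iff.1 h (LinearMap.toSpanSingleton Λ S.T s)) (1 : Λ)
  exact hs (by simpa using this)

theorem exists_R2 [FiniteDimensional k Λ] {S1 S2 : FM k Λ} (h1 : IsSimpleModule Λ S1.T)
    (h2 : IsSimpleModule Λ S2.T) (hne : IsEmpty (S1.T ≃ₗ[Λ] S2.T))
    (hall : ∀ S : FM k Λ, IsSimpleModule Λ S.T →
      Nonempty (S.T ≃ₗ[Λ] S1.T) ∨ Nonempty (S.T ≃ₗ[Λ] S2.T)) : Nonempty (R2 k Λ) := by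
  obtain ⟨x, hx1, hx2⟩ := exists_sep h1 h2 hne
  have : IsArtinian Λ Λ := isArtinian_of_tower k inferInstance
  have : IsNoetherian Λ Λ := isNoetherian_of_tower k inferInstance
  let ρ : Module.End Λ Λ := LinearMap.toSpanSingleton Λ Λ x
  obtain ⟨N, hN, hN1⟩ := ((LinearMap.eventually_isCompl_ker_pow_range_pow ρ).and
    (Filter.eventually_ge_atTop 1)).exists
  have hρ : ∀ (m : ℕ) (a : Λ), (ρ ^ m) a = a * x ^ m := by
    intro m
    induction m with
    | zero => intro a; simp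
    | succ m ih =>
      intro a
      rw [pow_succ, Module.End.mul_apply, ih, pow_succ', ← mul_assoc]
      rfl
  have h12 : hd ((FM.reg k Λ).sub (LinearMap.range (ρ ^ N))) S2 = 0 := by
    refine hd_eq_zero_iff.2 fun l => LinearMap.ext ?_
    rintro ⟨_, a, rfl⟩
    let l' : Λ →ₗ[Λ] S2.T := l ∘ₗ Submodule.projectionOnto _ _ hN.symm
    have e1 : l' ((ρ ^ N) a) = l ⟨(ρ ^ N) a, a, rfl⟩ :=
      congrArg l (Submodule.projectionOnto_apply_of_mem_left hN.symm ⟨a, rfl⟩)
    obtain ⟨m, rfl⟩ : ∃ m, N = m + 1 := ⟨N - 1, by omega⟩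
    refine e1.symm.trans (?_ : _ = (0 : S2.T))
    rw [hρ, pow_succ, ← mul_assoc, ← mul_one (a * x ^ m * x), ← smul_eq_mul, map_smul,
      mul_smul, hx2, smul_zero]
  have h21 : hd ((FM.reg k Λ).sub (LinearMap.ker (ρ ^ N))) S1 = 0 := by
    refine hd_eq_zero_iff.2 fun l => LinearMap.ext fun a => ?_
    let l' : Λ →ₗ[Λ] S1.T := l ∘ₗ Submodule.projectionOnto _ _ hN
    have e0 : ∀ (m : ℕ) (s : S1.T), x ^ m • s = s := by
      intro m s
      induction m with
      | zero => simp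
      | succ m ih => rw [pow_succ, mul_smul, hx1, ih]
    have e1 : l' 1 = 0 := by
      rw [← e0 N (l' 1), ← map_smul, smul_eq_mul, mul_one, ← one_mul (x ^ N), ← hρ]
      change l (Submodule.projectionOnto _ _ hN _) = 0
      rw [(Submodule.projectionOnto_apply_eq_zero_iff hN).2 ⟨1, rfl⟩, map_zero]
    have e2 : l' a.1 = l a := congrArg l (Submodule.projectionOnto_apply_left hN a)
    rw [← e2, ← mul_one a.1, ← smul_eq_mul, map_smul, e1, smul_zero, LinearMap.zero_apply]
  have := IsSimpleModule.nontrivial Λ S1.T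
  have := IsSimpleModule.nontrivial Λ S2.T
  have a1 := hd_compl (FM.reg k Λ) S1 hN
  have a2 := hd_compl (FM.reg k Λ) S2 hN
  have b1 := hd_reg_pos S1
  have b2 := hd_reg_pos S2
  exact ⟨{ S1 := S1, S2 := S2, Q1 := (FM.reg k Λ).sub (LinearMap.range (ρ ^ N))
           Q2 := (FM.reg k Λ).sub (LinearMap.ker (ρ ^ N))
           p1 := Module.Projective.of_split (Submodule.subtype _)
             (Submodule.projectionOnto _ _ hN.symm) (Submodule.projectionOnto_comp_subtype hN.symm)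
           p2 := Module.Projective.of_split (Submodule.subtype _)
             (Submodule.projectionOnto _ _ hN) (Submodule.projectionOnto_comp_subtype hN)
           all := hall, h11 := by omega, h12 := h12, h21 := h21, h22 := by omega }⟩

theorem bounded_of_two [Infinite k] [FiniteDimensional k Λ] (hBD : BD k Λ) (h : TwoSimples Λ) :
    ∃ b, ∀ M : FM k Λ, IsBrick M → M.dim ≤ b := by
  by_cases hc : ∃ S1 S2 : FM k Λ, IsSimpleModule Λ S1.T ∧ IsSimpleModule Λ S2.T ∧
      IsEmpty (S1.T ≃ₗ[Λ] S2.T)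
  · obtain ⟨S1, S2, h1, h2, hne⟩ := hc
    obtain ⟨R⟩ := exists_R2 h1 h2 hne fun S hS => by
      obtain h | h | ⟨⟨e⟩⟩ := h S.T S1.T S2.T hS h1 h2
      · exact Or.inl h
      · exact Or.inr h
      · exact (hne.false e).elim
    exact R.bounded hBD
  · push Not at hc
    refine ⟨finrank k Λ, fun M hM => ?_⟩
    have := hM.1
    obtain ⟨X, hX⟩ := exists_simple_sub M
    obtain ⟨Y, hY⟩ := exists_simple_quot M
    obtain ⟨e⟩ := hc (M.sub X) (M.quot Y) hX hY
    have h1 := brick_le (S := M.quot Y) hM Y.mkQ Y.mkQ_surjective _ (sub_ne_zero hX e)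
    have := IsSimpleModule.nontrivial Λ (M.T ⧸ Y)
    obtain ⟨s, hs⟩ := exists_ne (0 : M.T ⧸ Y)
    exact h1.trans (dim_le_of_surj (M := FM.reg k Λ) (N := M.quot Y) _
      (IsSimpleModule.toSpanSingleton_surjective Λ hs))

/-- The matrix representation of a module in a basis. -/
noncomputable def toRep (M : FM k Λ) {n : ℕ} (b : Basis (Fin n) k M.T) :
    Λ →ₐ[k] Matrix (Fin n) (Fin n) k :=
  (LinearMap.toMatrixAlgEquiv b).toAlgHom.comp (Algebra.lsmul k k M.T)

theorem toRep_apply (M : FM k Λ) {n : ℕ} (b : Basis (Fin n) k M.T) (a : Λ) :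
    toRep M b a = LinearMap.toMatrix b b (Algebra.lsmul k k M.T a) := rfl

/-- An intertwining matrix gives a module map. -/
noncomputable def ofMat {M N : FM k Λ} {n : ℕ} (b : Basis (Fin n) k M.T) (c : Basis (Fin n) k N.T)
    (P : Matrix (Fin n) (Fin n) k) (h : ∀ a, P * toRep M b a = toRep N c a * P) :
    M.T →ₗ[Λ] N.T where
  toFun := Matrix.toLin b c P
  map_add' := map_add _
  map_smul' a x := by
    have := congrArg (Matrix.toLin b c) (h a)
    rw [Matrix.toLin_mul b b c, Matrix.toLin_mul b c c, toRep_apply, toRep_apply,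
      Matrix.toLin_toMatrix, Matrix.toLin_toMatrix] at this
    exact LinearMap.congr_fun this x

theorem toLin_bij_iff {M N : FM k Λ} {n : ℕ} (b : Basis (Fin n) k M.T) (c : Basis (Fin n) k N.T)
    (P : Matrix (Fin n) (Fin n) k) : Bijective (Matrix.toLin b c P) ↔ IsUnit P := by
  have : ⇑(Matrix.toLin b c P) = c.equivFun.symm ∘ P.mulVec ∘ b.equivFun := by
    funext x
    simp [Matrix.toLin_apply, Basis.equivFun_symm_apply]
  rw [this, EquivLike.comp_bijective, EquivLike.bijective_comp]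
  exact ⟨fun h => Matrix.mulVec_injective_iff_isUnit.1 h.1,
    fun h => ⟨Matrix.mulVec_injective_iff_isUnit.2 h, Matrix.mulVec_surjective_iff_isUnit.2 h⟩⟩

theorem brickRep_toRep {M : FM k Λ} (hM : IsBrick M) {n : ℕ} (b : Basis (Fin n) k M.T) :
    BrickRep (toRep M b) := by
  intro X hX h0
  refine (toLin_bij_iff b b X).1 (hM.2 (ofMat b b X hX) fun h => h0 ?_)
  refine (Matrix.toLin b b).injective ?_
  rw [map_zero]
  exact LinearMap.ext fun x => LinearMap.congr_fun h x

theorem fin_cover (P : FM k Λ → Prop) : ∀ N : ℕ,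
    (¬ ∃ f : Fin N → FM k Λ, (∀ i, P (f i)) ∧ ∀ i j, i ≠ j → IsEmpty ((f i).T ≃ₗ[Λ] (f j).T)) →
    ∃ (m : ℕ) (S : Fin m → FM k Λ), ∀ M, P M → ∃ s, Nonempty (M.T ≃ₗ[Λ] (S s).T) := by
  intro N
  induction N with
  | zero => exact fun h => absurd ⟨Fin.elim0, fun i => i.elim0, fun i => i.elim0⟩ h
  | succ N ih =>
    intro h
    by_cases h' : ∃ f : Fin N → FM k Λ, (∀ i, P (f i)) ∧
        ∀ i j, i ≠ j → IsEmpty ((f i).T ≃ₗ[Λ] (f j).T)
    · obtain ⟨f, hf1, hf2⟩ := h'
      refine ⟨N, f, fun M hM => ?_⟩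
      by_contra hc
      push Not at hc
      refine h ⟨Fin.cons M f, fun i => Fin.cases hM hf1 i, fun i j => ?_⟩
      refine Fin.cases ?_ (fun i => ?_) i <;> refine Fin.cases ?_ (fun j => ?_) j
      · exact fun h => absurd rfl h
      · exact fun _ => hc j
      · exact fun _ => ⟨fun e => (hc i).false e.symm⟩
      · exact fun hij => hf2 i j fun h => hij (h ▸ rfl)
    · exact ih h'

theorem BD_of_not_many (h : ¬ ManyBricks k Λ) : BD k Λ := by
  unfold ManyBricks at h
  push Not at h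
  have key : ∀ n, ∃ (m : ℕ) (S : Fin m → FM k Λ), ∀ M : FM k Λ, (IsBrick M ∧ M.dim = n) →
      ∃ s, Nonempty (M.T ≃ₗ[Λ] (S s).T) := by
    intro n
    obtain ⟨N, hN⟩ := h n
    refine fin_cover _ N ?_
    rintro ⟨f, hf1, hf2⟩
    let b : ∀ i, Basis (Fin n) k (f i).T := fun i => finBasisOfFinrankEq k _ (hf1 i).2
    obtain ⟨i, j, hij, P, hP, hc⟩ := hN (fun i => toRep (f i) (b i))
      fun i => brickRep_toRep (hf1 i).1 _
    exact (hf2 i j hij).false (LinearEquiv.ofBijective (ofMat (b i) (b j) P hc)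
      ((toLin_bij_iff (b i) (b j) P).2 hP))
  choose m S hS using key
  intro n
  refine ⟨Σ j : Fin (n + 1), Fin (m j), inferInstance, fun s => S s.1 s.2, fun N hN hd => ?_⟩
  obtain ⟨s, hs⟩ := hS N.dim N ⟨hN, rfl⟩
  exact ⟨⟨⟨N.dim, Nat.lt_succ_of_le hd⟩, s⟩, hs⟩

/-- The module of a matrix representation. -/
def RM {n : ℕ} (_ : Λ →ₐ[k] Matrix (Fin n) (Fin n) k) : Type := Fin n → k

section RM

variable {n : ℕ} (ρ : Λ →ₐ[k] Matrix (Fin n) (Fin n) k)

instance : AddCommGroup (RM ρ) := inferInstanceAs (AddCommGroup (Fin n → k))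
instance : Module k (RM ρ) := inferInstanceAs (Module k (Fin n → k))
instance : FiniteDimensional k (RM ρ) := inferInstanceAs (FiniteDimensional k (Fin n → k))

instance : Module Λ (RM ρ) where
  smul a v := (ρ a).mulVec v
  one_smul v := (congrArg (fun A => Matrix.mulVec A v) (map_one ρ)).trans (Matrix.one_mulVec _)
  mul_smul a b v := (congrArg (fun A => Matrix.mulVec A v) (map_mul ρ a b)).trans
    (Matrix.mulVec_mulVec _ _ _).symm
  smul_zero _ := Matrix.mulVec_zero _
  smul_add _ _ _ := Matrix.mulVec_add _ _ _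
  add_smul a b v := (congrArg (fun A => Matrix.mulVec A v) (map_add ρ a b)).trans
    (Matrix.add_mulVec _ _ _)
  zero_smul v := (congrArg (fun A => Matrix.mulVec A v) (map_zero ρ)).trans (Matrix.zero_mulVec _)

instance : IsScalarTower k Λ (RM ρ) where
  smul_assoc c a v := (congrArg (fun A => Matrix.mulVec A v) (map_smul ρ c a)).trans
    (Matrix.smul_mulVec _ _ _)

theorem exists_brick_of_rep (h : BrickRep ρ) (hn : 0 < n) :
    ∃ M : FM k Λ, IsBrick M ∧ M.dim = n := by
  refine ⟨{ T := RM ρ }, ⟨?_, fun φ h0 => ?_⟩, finrank_fin_fun k⟩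
  · have : Nonempty (Fin n) := ⟨⟨0, hn⟩⟩
    exact inferInstanceAs (Nontrivial (Fin n → k))
  · let ψ : (Fin n → k) →ₗ[k] (Fin n → k) := φ.restrictScalars k
    have e : ∀ v, (LinearMap.toMatrix' ψ).mulVec v = ψ v := fun v => LinearMap.toMatrix'_mulVec ψ v
    have hu := h (LinearMap.toMatrix' ψ) (fun a => ?_) fun h1 => h0 ?_
    · have : (⇑φ : (Fin n → k) → (Fin n → k)) = (LinearMap.toMatrix' ψ).mulVec :=
        funext fun v => (e v).symm
      have hb : Bijective (LinearMap.toMatrix' ψ).mulVec :=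
        ⟨Matrix.mulVec_injective_iff_isUnit.2 hu, Matrix.mulVec_surjective_iff_isUnit.2 hu⟩
      exact this ▸ hb
    · refine Matrix.ext_iff_mulVec.2 fun v => ?_
      rw [← Matrix.mulVec_mulVec, ← Matrix.mulVec_mulVec, e, e]
      exact φ.map_smul a v
    · refine LinearMap.ext fun v => ?_
      exact (e v).symm.trans ((congrArg (fun A => Matrix.mulVec A v) h1).trans
        (Matrix.zero_mulVec _))

end RM

theorem exists_rigid [Infinite k] (hBD : BD k Λ) (P Q : FM k Λ) [Module.Projective Λ P.T]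
    [Module.Projective Λ Q.T] : ∃ f : P.T →ₗ[Λ] Q.T, Rigid f := by
  obtain ⟨δ, hδ⟩ := exists_rigid_ext hBD (Pres.pos Q) (Pres.neg P) (EZ_pos _ _) (EZ_neg _ _)
    (EZ_pos _ _)
  refine ⟨δ, fun g => ?_⟩
  have h1 : EZ ((Pres.pos Q).ext (Pres.neg P) δ) (Q.quot (LinearMap.range δ)) := by
    refine hδ.of_surj (Pres.desc _ (M := Q.quot (LinearMap.range δ))
      ((LinearMap.range δ).mkQ ∘ₗ LinearMap.fst Λ _ _) ?_) ?_
    · refine LinearMap.ext ?_
      rintro ⟨x, y⟩
      exact (Submodule.Quotient.mk_eq_zero _).2 ⟨y, (zero_add _).symm⟩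
    · intro z
      obtain ⟨x, rfl⟩ := Submodule.Quotient.mk_surjective _ z
      exact ⟨Submodule.Quotient.mk (x, 0), rfl⟩
  obtain ⟨π, hπ⟩ := h1 ((LinearMap.range δ).mkQ ∘ₗ g ∘ₗ LinearMap.snd Λ _ _)
  obtain ⟨b, hb⟩ := Module.projective_lifting_property (LinearMap.range δ).mkQ
    (π ∘ₗ LinearMap.inl Λ _ _) (Submodule.mkQ_surjective _)
  obtain ⟨a, ha⟩ := lift_range δ (g - b ∘ₗ δ) fun y => by
    refine (Submodule.Quotient.eq _).1 ?_
    have e1 := LinearMap.congr_fun hπ (0, y)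
    have e2 := LinearMap.congr_fun hb (δ y)
    refine e1.symm.trans (Eq.trans ?_ e2.symm)
    exact congrArg π (Prod.ext (zero_add _) rfl)
  exact ⟨a, b, by rw [ha]; abel⟩

/-- The orbit map differential. -/
def orb (P Q : FM k Λ) : (P.T →ₗ[Λ] Q.T) →ₗ[k]
    ((P.T →ₗ[Λ] P.T) × (Q.T →ₗ[Λ] Q.T)) →ₗ[k] (P.T →ₗ[Λ] Q.T) where
  toFun f := (post P f).coprod (pre f Q)
  map_add' f g := by
    refine LinearMap.ext fun z => LinearMap.ext fun x => ?_
    change (f (z.1 x) + g (z.1 x)) + z.2 (f x + g x) =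
      (f (z.1 x) + z.2 (f x)) + (g (z.1 x) + z.2 (g x))
    rw [map_add]
    abel
  map_smul' c f := by
    refine LinearMap.ext fun z => LinearMap.ext fun x => ?_
    change c • f (z.1 x) + z.2 (c • f x) = c • (f (z.1 x) + z.2 (f x))
    rw [smul_add, LinearMap.map_smul_of_tower]

theorem eFinite_of_BD [Infinite k] (hBD : BD k Λ) : EFinite k Λ := by
  intro P Q _ _ _ _ _ _ _ _ _ _ _ _ m b
  let P' : FM k Λ := { T := P }
  let Q' : FM k Λ := { T := Q }
  obtain ⟨f, hf⟩ := exists_rigid hBD P' Q'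
  have hs : LinearMap.range (orb P' Q' f) = ⊤ :=
    LinearMap.range_eq_top.2 fun g => by
      obtain ⟨a, c, h⟩ := hf g
      exact ⟨(a, c), h.symm⟩
  obtain ⟨s, hs'⟩ := (orb P' Q' f).exists_rightInverse_of_surjective hs
  let G : (P →ₗ[Λ] Q) →ₗ[k] Matrix (Fin m) (Fin m) k :=
    (LinearMap.toMatrix b b).toLinearMap ∘ₗ LinearMap.lcomp k _ s ∘ₗ orb P' Q'
  let A : Matrix (Fin m) (Fin m) (MvPolynomial (Fin m) k) :=
    ∑ i, (MvPolynomial.X i : MvPolynomial (Fin m) k) • (G (b i)).map MvPolynomial.C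
  have ev : ∀ x : Fin m → k, MvPolynomial.eval x A.det = (G (∑ i, x i • b i)).det := by
    intro x
    rw [RingHom.map_det, map_sum G]
    congr 1
    ext i j
    simp [A, Matrix.sum_apply]
  refine ⟨A.det, fun h => ?_, fun x hx g => ?_⟩
  · have := ev (b.equivFun f)
    rw [h, map_zero, Basis.sum_equivFun] at this
    have e : G f = 1 := by
      change LinearMap.toMatrix b b (orb P' Q' f ∘ₗ s) = 1
      rw [hs', LinearMap.toMatrix_id]
    rw [e, Matrix.det_one] at this
    exact zero_ne_one this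
  · rw [ev] at hx
    have h1 : IsUnit (orb P' Q' (∑ i, x i • b i) ∘ₗ s) := by
      rw [LinearMap.isUnit_iff_isUnit_det, ← LinearMap.det_toMatrix b]
      exact hx.isUnit
    obtain ⟨z, hz⟩ := ((Module.End.isUnit_iff _).1 h1).2 g
    exact ⟨(s z).1, (s z).2, hz.symm⟩

theorem main (k Λ : Type) [Field k] [IsAlgClosed k] [Ring Λ] [Algebra k Λ]
    [FiniteDimensional k Λ] :
    (¬ EFinite k Λ → ManyBricks k Λ) ∧
      (TwoSimples Λ → LargeBricks k Λ ∨ ManyBricks k Λ → ManyBricks k Λ) := by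
  refine ⟨fun h => ?_, fun h2 h => ?_⟩
  · by_contra hc
    exact h (eFinite_of_BD (BD_of_not_many hc))
  · by_contra hc
    obtain ⟨b, hb⟩ := bounded_of_two (BD_of_not_many hc) h2
    obtain ⟨n, hn, ρ, hρ⟩ := h.resolve_right hc b
    obtain ⟨M, hM, rfl⟩ := exists_brick_of_rep ρ hρ (by omega)
    exact absurd (hb M hM) (not_le.2 hn)

end Pool.Agent.Lib.MP_146384_al
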