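import Pool.Agent.Lib.MP_146384_al.Basic

set_option autoImplicit false

namespace Pool.Agent.Lib.MP_146384_al

open Module Function

variable {k Λ : Type} [Field k] [Ring Λ] [Algebra k Λ]

/-- The extension of `V'` by `V` along `δ`. -/
abbrev Pres.ext (V V' : Pres k Λ) (δ : V'.P1.T →ₗ[Λ] V.P0.T) : Pres k Λ where
  P1 := V.P1.prod V'.P1
  P0 := V.P0.prod V'.P0
  f := (V.f.coprod δ).prod (V'.f ∘ₗ LinearMap.snd Λ _ _)

theorem ext_comp {V V' : Pres k Λ} (δ : V'.P1.T →ₗ[Λ] V.P0.T) {M : FM k Λ}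
    (ρ : V.P0.T →ₗ[Λ] M.T) (ρ' : V'.P0.T →ₗ[Λ] M.T) :
    ρ.coprod ρ' ∘ₗ (V.ext V' δ).f = (ρ ∘ₗ V.f).coprod (ρ ∘ₗ δ + ρ' ∘ₗ V'.f) := by
  refine LinearMap.ext ?_
  rintro ⟨x, y⟩
  simp [add_assoc]

theorem EZ.ext_pres {V V' : Pres k Λ} (δ : V'.P1.T →ₗ[Λ] V.P0.T) {M : FM k Λ} (h : EZ V M)
    (h' : EZ V' M) : EZ (V.ext V' δ) M := fun ψ => by
  obtain ⟨ρ, hρ⟩ := h (ψ ∘ₗ LinearMap.inl Λ _ _)
  obtain ⟨ρ', hρ'⟩ := h' (ψ ∘ₗ LinearMap.inr Λ _ _ - ρ ∘ₗ δ)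
  refine ⟨ρ.coprod ρ', ?_⟩
  rw [ext_comp, hρ, hρ', add_sub_cancel]
  exact LinearMap.coprod_comp_inl_inr ψ

/-- The map of cokernels `C V → C V''`. -/
def Pres.cin (V V' : Pres k Λ) (δ : V'.P1.T →ₗ[Λ] V.P0.T) : V.C.T →ₗ[Λ] (V.ext V' δ).C.T :=
  V.desc (M := (V.ext V' δ).C) ((LinearMap.range (V.ext V' δ).f).mkQ ∘ₗ LinearMap.inl Λ _ _) (by
    ext x
    simp only [LinearMap.comp_apply, Submodule.mkQ_apply, LinearMap.zero_apply,
      Submodule.Quotient.mk_eq_zero]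
    exact ⟨(x, 0), by simp⟩)

/-- The map of cokernels `C V'' → C V'`. -/
def Pres.cout (V V' : Pres k Λ) (δ : V'.P1.T →ₗ[Λ] V.P0.T) : (V.ext V' δ).C.T →ₗ[Λ] V'.C.T :=
  (V.ext V' δ).desc (M := V'.C) ((LinearMap.range V'.f).mkQ ∘ₗ LinearMap.snd Λ _ _) (by
    refine LinearMap.ext ?_
    rintro ⟨x, y⟩
    simp)

theorem cout_surj (V V' : Pres k Λ) (δ : V'.P1.T →ₗ[Λ] V.P0.T) : Surjective (V.cout V' δ) := by
  intro z
  obtain ⟨y, rfl⟩ := Submodule.Quotient.mk_surjective _ z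
  exact ⟨Submodule.Quotient.mk (0, y), rfl⟩

theorem cout_exact (V V' : Pres k Λ) (δ : V'.P1.T →ₗ[Λ] V.P0.T) (z : (V.ext V' δ).C.T)
    (hz : V.cout V' δ z = 0) : z ∈ LinearMap.range (V.cin V' δ) := by
  obtain ⟨⟨x, y⟩, rfl⟩ := Submodule.Quotient.mk_surjective _ z
  have h1 : (Submodule.Quotient.mk y : V'.C.T) = 0 := hz
  obtain ⟨w, rfl⟩ := (Submodule.Quotient.mk_eq_zero _).1 h1
  refine ⟨Submodule.Quotient.mk (x - δ w), ?_⟩
  change (Submodule.Quotient.mk (x - δ w, 0) : (V.ext V' δ).C.T) = _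
  rw [Submodule.Quotient.eq]
  exact ⟨(0, -w), by simp⟩

theorem EZ.cext {Y V V' : Pres k Λ} (δ : V'.P1.T →ₗ[Λ] V.P0.T) (h : EZ Y V.C) (h' : EZ Y V'.C) :
    EZ Y (V.ext V' δ).C :=
  h.ext h' (V.cin V' δ) (V.cout V' δ) (cout_surj V V' δ) (cout_exact V V' δ)

/-- The variation of the extension class. -/
def Pres.var (V V' : Pres k Λ) (M : FM k Λ) : (V'.P1.T →ₗ[Λ] V.P0.T) →ₗ[k]
    ((V.P0.prod V'.P0).T →ₗ[Λ] M.T) →ₗ[k] ((V.P1.prod V'.P1).T →ₗ[Λ] M.T) where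
  toFun δ := pre (A := V.P1.prod V'.P1) (B := V.P0.prod V'.P0)
    (LinearMap.inl Λ _ _ ∘ₗ δ ∘ₗ LinearMap.snd Λ _ _) M
  map_add' δ δ' := by
    refine LinearMap.ext fun π => LinearMap.ext ?_
    rintro ⟨x, y⟩
    change π (δ y + δ' y, 0) = π (δ y, 0) + π (δ' y, 0)
    simp [← map_add]
  map_smul' c δ := by
    refine LinearMap.ext fun π => LinearMap.ext ?_
    rintro ⟨x, y⟩
    change π (c • δ y, 0) = c • π (δ y, 0)
    rw [← LinearMap.map_smul_of_tower π]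
    exact congrArg π (Prod.ext rfl (smul_zero c).symm :
      ((c • δ y, 0) : V.P0.T × V'.P0.T) = c • (δ y, 0))

theorem pre_ext (V V' : Pres k Λ) (M : FM k Λ) (δ : V'.P1.T →ₗ[Λ] V.P0.T) :
    pre (V.ext V' 0).f M + V.var V' M δ = pre (V.ext V' δ).f M := by
  refine LinearMap.ext fun π => LinearMap.ext ?_
  rintro ⟨x, y⟩
  change π (V.f x + 0, V'.f y) + π (δ y, 0) = π (V.f x + δ y, V'.f y)
  simp [← map_add]

/-- Generic extensions of rigid presentations are rigid. -/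
theorem exists_rigid_ext [Infinite k] (hBD : BD k Λ) (V V' : Pres k Λ) (hV : EZ V V.C)
    (hV' : EZ V' V'.C) (hVV' : EZ V V'.C) :
    ∃ δ : V'.P1.T →ₗ[Λ] V.P0.T, EZ (V.ext V' δ) (V.ext V' δ).C := by
  obtain ⟨ι, _, S, hS⟩ := hBD (V.P0.prod V'.P0).dim
  obtain ⟨δ, hδ⟩ := exists_max_rank (k := k) (fun s => (V.P0.prod V'.P0).T →ₗ[Λ] (S s).T)
    (fun s => (V.P1.prod V'.P1).T →ₗ[Λ] (S s).T) (fun s => pre (V.ext V' 0).f (S s))
    (fun s => V.var V' (S s))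
  refine ⟨δ, ?_⟩
  by_contra hc
  obtain ⟨N, q, hq, hN, hE⟩ := exists_brick _ _ _ rfl hc
  obtain ⟨s, ⟨e⟩⟩ := hS N hN ((dim_le_of_surj q hq).trans
    (dim_le_of_surj (M := V.P0.prod V'.P0) (N := (V.ext V' δ).C) (Submodule.mkQ _)
      (Submodule.mkQ_surjective _)))
  refine hE (EZ.of_surj (M := S s) ?_ e.symm.toLinearMap e.symm.surjective)
  let q' : (V.ext V' δ).C.T →ₗ[Λ] (S s).T := e.toLinearMap ∘ₗ q
  have hq' : Surjective q' := e.surjective.comp hq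
  let π : (V.P0.prod V'.P0).T →ₗ[Λ] (S s).T := q' ∘ₗ (LinearMap.range (V.ext V' δ).f).mkQ
  have hπ : π ∘ₗ (V.ext V' δ).f = 0 := by
    rw [LinearMap.comp_assoc, Pres.mkQ_comp, LinearMap.comp_zero]
  have key := fun ε => hδ s ε π (by rw [pre_ext]; exact hπ)
  have hVS : EZ V (S s) := (hV.cext δ hVV').of_surj q' hq'
  let π0 : V.P0.T →ₗ[Λ] (S s).T := π ∘ₗ LinearMap.inl Λ _ _
  let π1 : V'.P0.T →ₗ[Λ] (S s).T := π ∘ₗ LinearMap.inr Λ _ _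
  have hrel : ∀ y, π0 (δ y) + π1 (V'.f y) = 0 := fun y => by
    have := LinearMap.congr_fun hπ (0, y)
    simp only [LinearMap.comp_apply, LinearMap.zero_apply] at this
    rw [← this]
    simp [π0, π1, ← map_add]
  have hQ : EZ V' ((S s).quot (LinearMap.range π0)) := by
    refine hV'.of_surj (V'.desc (M := (S s).quot (LinearMap.range π0))
      ((LinearMap.range π0).mkQ ∘ₗ π1) ?_) ?_
    · ext y
      simp only [LinearMap.comp_apply, Submodule.mkQ_apply, LinearMap.zero_apply,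
        Submodule.Quotient.mk_eq_zero]
      exact ⟨-δ y, by rw [map_neg]; exact (eq_neg_of_add_eq_zero_right (hrel y)).symm⟩
    · intro z
      obtain ⟨w, rfl⟩ := Submodule.Quotient.mk_surjective _ z
      obtain ⟨⟨x, y⟩, rfl⟩ := (hq'.comp (Submodule.mkQ_surjective _)) w
      refine ⟨Submodule.Quotient.mk y, ?_⟩
      change (Submodule.Quotient.mk (π1 y) : ((S s).quot (LinearMap.range π0)).T) =
        Submodule.Quotient.mk (π (x, y))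
      rw [Submodule.Quotient.eq]
      exact ⟨-x, by simp [π0, π1, ← map_sub, ← map_neg]⟩
  intro ψ
  obtain ⟨ρ, hρ⟩ := hVS (ψ ∘ₗ LinearMap.inl Λ _ _)
  obtain ⟨ρb, hρb⟩ := hQ ((LinearMap.range π0).mkQ ∘ₗ (ψ ∘ₗ LinearMap.inr Λ _ _ - ρ ∘ₗ δ))
  obtain ⟨ρ', rfl⟩ := Module.projective_lifting_property (LinearMap.range π0).mkQ ρb
    (Submodule.mkQ_surjective _)
  obtain ⟨ε, hε⟩ := lift_range π0 (ψ ∘ₗ LinearMap.inr Λ _ _ - ρ ∘ₗ δ - ρ' ∘ₗ V'.f) fun y => by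
    have := LinearMap.congr_fun hρb y
    simp only [LinearMap.comp_apply, Submodule.mkQ_apply] at this
    exact (Submodule.Quotient.eq _).1 this.symm
  obtain ⟨σ, hσ⟩ := key ε
  rw [pre_ext] at hσ
  refine ⟨ρ.coprod ρ' + σ, ?_⟩
  rw [LinearMap.add_comp, ext_comp, hρ]
  have h2 : σ ∘ₗ (V.ext V' δ).f = (π0 ∘ₗ ε) ∘ₗ LinearMap.snd Λ _ _ := hσ
  rw [h2, hε]
  refine LinearMap.ext ?_
  rintro ⟨x, y⟩
  have : ψ (x, y) = ψ (x, 0) + ψ (0, y) := by simp [← map_add]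
  rw [this]
  change ψ (x, 0) + (ρ (δ y) + ρ' (V'.f y)) + (ψ (0, y) - ρ (δ y) - ρ' (V'.f y)) = _
  abel

theorem finrank_lt_of_surj {H Q : Type} [AddCommGroup H] [Module k H] [AddCommGroup Q]
    [Module k Q] [FiniteDimensional k H] (U : Submodule k H) (Φ : H →ₗ[k] Q) (hΦ : Surjective Φ)
    (hU : U ≤ LinearMap.ker Φ) (x : H) (hx : Φ x = 0) (hxU : x ∉ U) :
    finrank k Q < finrank k (H ⧸ U) := by
  have h1 := Φ.finrank_range_add_finrank_ker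
  rw [LinearMap.range_eq_top.2 hΦ, finrank_top] at h1
  have h2 := U.finrank_quotient_add_finrank
  have h3 : finrank k U < finrank k (LinearMap.ker Φ) :=
    Submodule.finrank_lt_finrank_of_lt (lt_of_le_of_ne hU fun h => hxU (h ▸ hx))
  omega

theorem class_ne {V V' : Pres k Λ} {δ : V'.P1.T →ₗ[Λ] V.P0.T}
    (hr : EZ (V.ext V' δ) (V.ext V' δ).C) (hne : ¬ EZ V' V.C) :
    (LinearMap.range V.f).mkQ ∘ₗ δ ∉ LinearMap.range (pre V'.f V.C) := by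
  rintro ⟨ρ', hρ'⟩
  obtain ⟨ρ, rfl⟩ := Module.projective_lifting_property (LinearMap.range V.f).mkQ ρ'
    (Submodule.mkQ_surjective _)
  rw [pre_apply] at hρ'
  obtain ⟨σ, hσ⟩ := lift_range V.f (δ - ρ ∘ₗ V'.f) fun y => by
    have := LinearMap.congr_fun hρ' y
    simp only [LinearMap.comp_apply, Submodule.mkQ_apply] at this
    exact (Submodule.Quotient.eq _).1 this.symm
  have h1 : EZ (V.ext V' δ) V.C := by
    refine hr.of_surj ((V.ext V' δ).desc (M := V.C)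
      ((LinearMap.range V.f).mkQ.coprod (-((LinearMap.range V.f).mkQ ∘ₗ ρ))) ?_) ?_
    · refine (ext_comp (M := V.C) δ _ _).trans ?_
      rw [Pres.mkQ_comp, LinearMap.neg_comp, hρ', add_neg_cancel]
      exact LinearMap.ext fun _ => add_zero (0 : V.C.T)
    · intro z
      obtain ⟨x, rfl⟩ := Submodule.Quotient.mk_surjective _ z
      refine ⟨Submodule.Quotient.mk (x, 0), ?_⟩
      change (Submodule.Quotient.mk x : V.C.T) + -(Submodule.Quotient.mk (ρ 0)) = _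
      simp
  refine hne fun ψ => ?_
  obtain ⟨π, hπ⟩ := h1 ((0 : V.P1.T →ₗ[Λ] V.C.T).coprod ψ)
  rw [← LinearMap.coprod_comp_inl_inr π, ext_comp] at hπ
  have h2 : (π ∘ₗ LinearMap.inl Λ _ _) ∘ₗ V.f = 0 := by
    ext x; simpa [Prod.mk_zero_zero] using LinearMap.congr_fun hπ (x, 0)
  have h3 : (π ∘ₗ LinearMap.inl Λ _ _) ∘ₗ δ + (π ∘ₗ LinearMap.inr Λ _ _) ∘ₗ V'.f = ψ := by
    ext x; simpa [Prod.mk_zero_zero] using LinearMap.congr_fun hπ (0, x)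
  have h4 : δ = ρ ∘ₗ V'.f + V.f ∘ₗ σ := by rw [hσ]; abel
  refine ⟨(π ∘ₗ LinearMap.inl Λ _ _) ∘ₗ ρ + π ∘ₗ LinearMap.inr Λ _ _, ?_⟩
  rw [← h3]
  conv_rhs => rw [h4]
  rw [LinearMap.comp_add, ← LinearMap.comp_assoc σ, h2, LinearMap.add_comp]
  simp [LinearMap.comp_assoc]

theorem ee_lt_left {V V' : Pres k Λ} {δ : V'.P1.T →ₗ[Λ] V.P0.T} (hV : EZ V V.C)
    (hr : EZ (V.ext V' δ) (V.ext V' δ).C) (hne : ¬ EZ V' V.C) :
    ee (V.ext V' δ) V.C < ee V' V.C := by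
  refine finrank_lt_of_surj _ ((LinearMap.range (pre (V.ext V' δ).f V.C)).mkQ ∘ₗ
    pre (A := V.P1.prod V'.P1) (LinearMap.snd Λ _ _) V.C) ?_ ?_ _ ?_ (class_ne hr hne)
  · intro z
    obtain ⟨ψ, rfl⟩ := Submodule.Quotient.mk_surjective _ z
    obtain ⟨ρ, hρ⟩ := hV (ψ ∘ₗ LinearMap.inl Λ _ _)
    refine ⟨ψ ∘ₗ LinearMap.inr Λ _ _ - ρ ∘ₗ δ, ?_⟩
    simp only [LinearMap.comp_apply, Submodule.mkQ_apply, Submodule.Quotient.eq]
    refine ⟨-(ρ.coprod 0), ?_⟩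
    rw [map_neg, pre_apply, ext_comp, hρ]
    refine LinearMap.ext ?_
    rintro ⟨x, y⟩
    have : ψ (x, y) = ψ (x, 0) + ψ (0, y) := by simp [← map_add]
    change -(ψ (x, 0) + (ρ (δ y) + 0)) = (ψ (0, y) - ρ (δ y)) - ψ (x, y)
    rw [this]
    abel
  · rintro _ ⟨ρ', rfl⟩
    simp only [LinearMap.mem_ker, LinearMap.comp_apply, Submodule.mkQ_apply,
      Submodule.Quotient.mk_eq_zero]
    refine ⟨(0 : V.P0.T →ₗ[Λ] V.C.T).coprod ρ', ?_⟩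
    rw [pre_apply, ext_comp]
    refine LinearMap.ext ?_
    rintro ⟨x, y⟩
    change 0 + (0 + ρ' (V'.f y)) = ρ' (V'.f y)
    simp
  · simp only [LinearMap.comp_apply, Submodule.mkQ_apply, Submodule.Quotient.mk_eq_zero]
    refine ⟨(LinearMap.range V.f).mkQ.coprod 0, ?_⟩
    refine (ext_comp (M := V.C) δ _ _).trans ?_
    rw [Pres.mkQ_comp]
    refine LinearMap.ext ?_
    rintro ⟨x, y⟩
    change 0 + ((Submodule.Quotient.mk (δ y) : V.C.T) + 0) = Submodule.Quotient.mk (δ y)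
    simp

/-- Postcomposition. -/
def post (A : FM k Λ) {M N : FM k Λ} (i : M.T →ₗ[Λ] N.T) :
    (A.T →ₗ[Λ] M.T) →ₗ[k] (A.T →ₗ[Λ] N.T) where
  toFun π := i ∘ₗ π
  map_add' _ _ := LinearMap.comp_add _ _ _
  map_smul' c π := by
    ext x
    simp [LinearMap.map_smul_of_tower]

@[simp] theorem post_apply (A : FM k Λ) {M N : FM k Λ} (i : M.T →ₗ[Λ] N.T) (π : A.T →ₗ[Λ] M.T) :
    post A i π = i ∘ₗ π := rfl

theorem ee_lt_right {V V' : Pres k Λ} {δ : V'.P1.T →ₗ[Λ] V.P0.T} (hV' : EZ V' V'.C)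
    (hr : EZ (V.ext V' δ) (V.ext V' δ).C) (hne : ¬ EZ V' V.C) :
    ee V' (V.ext V' δ).C < ee V' V.C := by
  refine finrank_lt_of_surj _ ((LinearMap.range (pre V'.f (V.ext V' δ).C)).mkQ ∘ₗ
    post V'.P1 (V.cin V' δ)) ?_ ?_ _ ?_ (class_ne hr hne)
  · intro z
    obtain ⟨ψ, rfl⟩ := Submodule.Quotient.mk_surjective _ z
    obtain ⟨ρ, hρ⟩ := hV' (V.cout V' δ ∘ₗ ψ)
    obtain ⟨ρ', rfl⟩ := Module.projective_lifting_property _ ρ (cout_surj V V' δ)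
    obtain ⟨σ, hσ⟩ := lift_range (V.cin V' δ) (ψ - ρ' ∘ₗ V'.f) fun y => cout_exact _ _ _ _ (by
      have := LinearMap.congr_fun hρ y
      simp only [LinearMap.comp_apply] at this
      simp [this])
    refine ⟨σ, ?_⟩
    simp only [LinearMap.comp_apply, Submodule.mkQ_apply, Submodule.Quotient.eq]
    refine ⟨-ρ', ?_⟩
    change (-ρ') ∘ₗ V'.f = V.cin V' δ ∘ₗ σ - ψ
    rw [hσ, LinearMap.neg_comp]
    abel
  · rintro _ ⟨ρ', rfl⟩
    simp only [LinearMap.mem_ker, LinearMap.comp_apply, Submodule.mkQ_apply,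
      Submodule.Quotient.mk_eq_zero]
    exact ⟨V.cin V' δ ∘ₗ ρ', rfl⟩
  · simp only [LinearMap.comp_apply, Submodule.mkQ_apply, Submodule.Quotient.mk_eq_zero]
    refine ⟨-((LinearMap.range (V.ext V' δ).f).mkQ ∘ₗ LinearMap.inr Λ _ _), ?_⟩
    ext y
    change -(Submodule.Quotient.mk (0, V'.f y) : (V.ext V' δ).C.T) = Submodule.Quotient.mk (δ y, 0)
    rw [← Submodule.Quotient.mk_neg, Submodule.Quotient.eq]
    exact ⟨(0, -y), by simp⟩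

end Pool.Agent.Lib.MP_146384_al
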