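import Pool.Agent.Lib.MP_146384_al.GenExt

set_option autoImplicit false

namespace Pool.Agent.Lib.MP_146384_al

open Module Function

variable {k Λ : Type} [Field k] [Ring Λ] [Algebra k Λ]

theorem hd_add (P M : FM k Λ) [Module.Projective Λ P.T] (X : Submodule Λ M.T) :
    hd P M = hd P (M.sub X) + hd P (M.quot X) := by
  have h1 := (post P (M := M) (N := M.quot X) X.mkQ).finrank_range_add_finrank_ker
  have hs : Surjective (post P (M := M) (N := M.quot X) X.mkQ) := fun ψ =>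
    Module.projective_lifting_property X.mkQ ψ X.mkQ_surjective
  rw [LinearMap.range_eq_top.2 hs, finrank_top] at h1
  have hi : Injective (post P (M := M.sub X) (N := M) X.subtype) := fun a b h =>
    LinearMap.ext fun x => Subtype.ext (LinearMap.congr_fun h x)
  have h2 := LinearMap.finrank_range_of_inj hi
  have h3 : LinearMap.range (post P (M := M.sub X) (N := M) X.subtype) =
      LinearMap.ker (post P (M := M) (N := M.quot X) X.mkQ) := by
    ext π
    constructor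
    · rintro ⟨σ, rfl⟩
      refine LinearMap.ext fun x => ?_
      exact (Submodule.Quotient.mk_eq_zero X).2 (σ x).2
    · intro h
      exact ⟨LinearMap.codRestrict X π fun x =>
        (Submodule.Quotient.mk_eq_zero X).1 (LinearMap.congr_fun h x), rfl⟩
  rw [h3] at h2
  unfold hd
  omega

theorem hd_congr (P : FM k Λ) {M N : FM k Λ} (e : M.T ≃ₗ[Λ] N.T) : hd P M = hd P N := by
  refine LinearEquiv.finrank_eq (LinearEquiv.ofBijective (post P e.toLinearMap) ⟨?_, ?_⟩)
  · intro a b h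
    exact LinearMap.ext fun x => e.injective (LinearMap.congr_fun h x)
  · intro ψ
    exact ⟨e.symm.toLinearMap ∘ₗ ψ, LinearMap.ext fun x => e.apply_symm_apply _⟩

theorem hd_congr_left {P P' : FM k Λ} (e : P.T ≃ₗ[Λ] P'.T) (M : FM k Λ) : hd P' M = hd P M := by
  refine LinearEquiv.finrank_eq (LinearEquiv.ofBijective (pre e.toLinearMap M) ⟨?_, ?_⟩)
  · intro a b h
    refine LinearMap.ext fun x => ?_
    obtain ⟨y, rfl⟩ := e.surjective x
    exact LinearMap.congr_fun h y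
  · intro ψ
    exact ⟨ψ ∘ₗ e.symm.toLinearMap, LinearMap.ext fun x => congrArg ψ (e.symm_apply_apply _)⟩

theorem hd_prod (P P' M : FM k Λ) : hd (P.prod P') M = hd P M + hd P' M := by
  unfold hd
  rw [← finrank_prod]
  exact (LinearMap.coprodEquiv k).finrank_eq.symm

theorem hd_compl (P M : FM k Λ) {A B : Submodule Λ P.T} (h : IsCompl A B) :
    hd P M = hd (P.sub A) M + hd (P.sub B) M := by
  rw [← hd_prod]
  exact hd_congr_left (P := (P.sub A).prod (P.sub B)) (Submodule.prodEquivOfIsCompl A B h) M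

theorem hd_eq_zero_iff {P M : FM k Λ} : hd P M = 0 ↔ ∀ π : P.T →ₗ[Λ] M.T, π = 0 := by
  unfold hd
  rw [finrank_zero_iff]
  exact ⟨fun _ _ => Subsingleton.elim _ _, fun h => ⟨fun a b => (h a).trans (h b).symm⟩⟩

theorem hd_of_subsingleton (P M : FM k Λ) [Subsingleton M.T] : hd P M = 0 :=
  hd_eq_zero_iff.2 fun _ => LinearMap.ext fun _ => Subsingleton.elim _ _

theorem gg_ext (V V' : Pres k Λ) (δ : V'.P1.T →ₗ[Λ] V.P0.T) (M : FM k Λ) :
    gg (V.ext V' δ) M = gg V M + gg V' M := by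
  unfold gg
  rw [hd_prod, hd_prod]
  push_cast
  ring

/-- All nonzero quotients are positive. -/
def TT (V : Pres k Λ) (M : FM k Λ) : Prop :=
  ∀ (N : FM k Λ) (q : M.T →ₗ[Λ] N.T), Surjective q → Nontrivial N.T → 0 < gg V N

theorem TT.of_surj {V : Pres k Λ} {M N : FM k Λ} (h : TT V M) (q : M.T →ₗ[Λ] N.T)
    (hq : Surjective q) : TT V N := fun N' q' hq' => h N' (q' ∘ₗ q) (hq'.comp hq)

theorem TT.ez {V V' : Pres k Λ} (h : EZ V' V.C) :
    ∀ (n : ℕ) (M : FM k Λ), M.dim = n → TT V M → EZ V' M := by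
  intro n
  induction n using Nat.strong_induction_on with
  | _ n ih =>
  intro M hn hM
  by_cases hnt : Nontrivial M.T
  · obtain ⟨π, hπ, h0⟩ := exists_of_gg_pos (hM M LinearMap.id surjective_id hnt)
    have h1 : LinearMap.range π ≠ ⊥ := fun h => h0 (LinearMap.range_eq_bot.1 h)
    exact EZ.ext_sub _ (h.range π hπ) (ih _ (hn ▸ dim_quot_lt M h1) _ rfl
      (hM.of_surj (N := M.quot _) (Submodule.mkQ _) (Submodule.mkQ_surjective _)))
  · rw [not_nontrivial_iff_subsingleton] at hnt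
    exact EZ.of_subsingleton _ _

/-- The trace: a module in `TT Y` is generated by images of the cokernel. -/
theorem trace_top {Y : Pres k Λ} (hY : EZ Y Y.C) {M : FM k Λ} (hM : TT Y M) (X : Submodule Λ M.T)
    (hX : ∀ π : Y.P0.T →ₗ[Λ] M.T, π ∘ₗ Y.f = 0 → LinearMap.range π ≤ X) : X = ⊤ := by
  obtain ⟨t, ⟨ht1, ht2⟩, hmax⟩ := (wellFounded_gt (α := Submodule Λ M.T)).has_min
    {t | EZ Y (M.sub t) ∧ t ≤ X} ⟨⊥, EZ.of_subsingleton _ _, bot_le⟩
  have h3 : ∀ π : Y.P0.T →ₗ[Λ] M.T, π ∘ₗ Y.f = 0 → LinearMap.range π ≤ t := by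
    intro π hπ
    have h4 : EZ Y (M.sub (t ⊔ LinearMap.range π)) := by
      have h5 : EZ Y ((M.sub t).prod (M.sub (LinearMap.range π))) :=
        ht1.ext (hY.range π hπ) (LinearMap.inl Λ _ _) (LinearMap.snd Λ _ _)
          Prod.snd_surjective (by rintro ⟨a, b⟩ hb; exact ⟨a, Prod.ext rfl hb.symm⟩)
      refine h5.of_surj ((Submodule.inclusion le_sup_left).coprod
        (Submodule.inclusion le_sup_right)) ?_
      rintro ⟨z, hz⟩
      obtain ⟨a, ha, b, hb, rfl⟩ := Submodule.mem_sup.1 hz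
      exact ⟨(⟨a, ha⟩, ⟨b, hb⟩), rfl⟩
    have := hmax _ ⟨h4, sup_le ht2 (hX π hπ)⟩
    by_contra hc
    exact this (left_lt_sup.2 hc)
  have h6 := gg_nonpos (HZ.quot t ht1 h3)
  by_contra hc
  have ht : t ≠ ⊤ := fun h => hc (top_le_iff.1 (h ▸ ht2))
  have := hM (M.quot t) t.mkQ t.mkQ_surjective (Submodule.Quotient.nontrivial_iff.2 ht)
  omega

/-- Restriction of a presentation to direct summands. -/
abbrev Pres.res (Y : Pres k Λ) {A1 B1 : Submodule Λ Y.P1.T} {A0 B0 : Submodule Λ Y.P0.T}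
    (h1 : IsCompl A1 B1) (h0 : IsCompl A0 B0) (hA : ∀ x ∈ A1, Y.f x ∈ A0) : Pres k Λ where
  P1 := Y.P1.sub A1
  P0 := Y.P0.sub A0
  pr1 := Module.Projective.of_split A1.subtype (A1.projectionOnto B1 h1)
    (Submodule.projectionOnto_comp_subtype h1)
  pr0 := Module.Projective.of_split A0.subtype (A0.projectionOnto B0 h0)
    (Submodule.projectionOnto_comp_subtype h0)
  f := Y.f.restrict hA

section res

variable {Y : Pres k Λ} {A1 B1 : Submodule Λ Y.P1.T} {A0 B0 : Submodule Λ Y.P0.T}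
  (h1 : IsCompl A1 B1) (h0 : IsCompl A0 B0) (hA : ∀ x ∈ A1, Y.f x ∈ A0)
  (hB : ∀ x ∈ B1, Y.f x ∈ B0)

theorem EZ.res {M : FM k Λ} (h : EZ Y M) : EZ (Y.res h1 h0 hA) M := fun ψ => by
  obtain ⟨ρ, hρ⟩ := h (ψ ∘ₗ A1.projectionOnto B1 h1)
  refine ⟨ρ ∘ₗ A0.subtype, LinearMap.ext fun x => ?_⟩
  have := LinearMap.congr_fun hρ x
  simp only [LinearMap.comp_apply, Submodule.projectionOnto_apply_left] at this
  exact this

include hB in
theorem proj_comm : A0.projectionOnto B0 h0 ∘ₗ Y.f =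
    Y.f.restrict hA ∘ₗ A1.projectionOnto B1 h1 := by
  refine LinearMap.ext fun x => ?_
  obtain ⟨a, b, rfl, -⟩ := Submodule.existsUnique_add_of_isCompl h1 x
  simp only [LinearMap.comp_apply, map_add, Submodule.projectionOnto_apply_left,
    Submodule.projectionOnto_apply_right, add_zero, map_zero]
  rw [Submodule.projectionOnto_apply_of_mem_left h0 (hA a a.2),
    (Submodule.projectionOnto_apply_eq_zero_iff h0).2 (hB b b.2), add_zero]
  rfl

include hB in
theorem EZ.res_C {V : Pres k Λ} (h : EZ V Y.C) : EZ V (Y.res h1 h0 hA).C := by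
  refine h.of_surj (Y.desc (M := (Y.res h1 h0 hA).C)
    ((LinearMap.range (Y.f.restrict hA)).mkQ ∘ₗ A0.projectionOnto B0 h0) ?_) ?_
  · rw [LinearMap.comp_assoc, proj_comm h1 h0 hA hB]
    exact LinearMap.ext fun x => (Submodule.Quotient.mk_eq_zero _).2 ⟨_, rfl⟩
  · intro z
    obtain ⟨x, rfl⟩ := Submodule.Quotient.mk_surjective _ z
    refine ⟨Submodule.Quotient.mk x.1, ?_⟩
    change Submodule.Quotient.mk (A0.projectionOnto B0 h0 x) = _
    rw [Submodule.projectionOnto_apply_left]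

theorem gg_res (M : FM k Λ) :
    gg Y M = gg (Y.res h1 h0 hA) M + gg (Y.res h1.symm h0.symm hB) M := by
  unfold gg
  rw [hd_compl Y.P0 M h0, hd_compl Y.P1 M h1]
  push_cast
  ring

end res

/-- A nil left ideal of a finite-dimensional endomorphism ring kills a nonzero map. -/
theorem exists_killed {C M : FM k Λ} (J : Ideal (Module.End Λ C.T)) (hJ : ∀ φ ∈ J, IsNilpotent φ)
    (h : C.T →ₗ[Λ] M.T) (h0 : h ≠ 0) :
    ∃ h' : C.T →ₗ[Λ] M.T, h' ≠ 0 ∧ ∀ φ ∈ J, h' ∘ₗ φ = 0 := by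
  have : IsArtinianRing (Module.End Λ C.T) :=
    isArtinian_of_tower k (inferInstanceAs (IsArtinian k (C.T →ₗ[Λ] C.T)))
  obtain ⟨n, hn⟩ := IsArtinianRing.isNilpotent_jacobson_bot (R := Module.End Λ C.T)
  set I := Ideal.jacobson (⊥ : Ideal (Module.End Λ C.T))
  have hJI : J ≤ I := by
    intro φ hφ
    rw [Ideal.mem_jacobson_iff]
    intro y
    obtain ⟨u, hu⟩ := (hJ _ (J.mul_mem_left y hφ)).isUnit_add_one
    refine ⟨↑u⁻¹, ?_⟩
    rw [Ideal.mem_bot, mul_assoc, ← mul_add_one, ← hu, Units.inv_mul, sub_self]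
  have hex : ∃ m, ∀ φ ∈ I ^ m, h ∘ₗ φ = 0 := ⟨n, fun φ hφ => by
    rw [hn] at hφ
    rw [(Submodule.mem_bot _).1 hφ, LinearMap.comp_zero]⟩
  classical
  have hm := Nat.find_spec hex
  obtain hz | ⟨m, hm'⟩ : Nat.find hex = 0 ∨ ∃ m, Nat.find hex = m + 1 := by
    rcases Nat.find hex with _ | m
    · exact Or.inl rfl
    · exact Or.inr ⟨m, rfl⟩
  · rw [hz, Submodule.pow_zero, Ideal.one_eq_top] at hm
    exact absurd (hm 1 trivial) h0
  · have := Nat.find_min hex (m := m) (by omega)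
    push Not at this
    obtain ⟨φ, hφ, hne⟩ := this
    refine ⟨h ∘ₗ φ, hne, fun ψ hψ => ?_⟩
    rw [hm', Submodule.pow_succ] at hm
    exact hm (φ * ψ) (Ideal.mul_mem_mul hφ (hJI hψ))

end Pool.Agent.Lib.MP_146384_al
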