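import Mathlib

set_option autoImplicit false

namespace Pool.Agent.Lib.MP_146384_al

open Module Filter

variable {k : Type} [Field k]

theorem eventually_injective {V : Type} [AddCommGroup V] [Module k V] [FiniteDimensional k V]
    (M : V →ₗ[k] V) : ∀ᶠ t in (cofinite : Filter k), Function.Injective (LinearMap.id + t • M : V →ₗ[k] V) := by
  have hfin : (spectrum k (M : Module.End k V)).Finite := Module.End.finite_spectrum M
  have h2 : ((fun s : k => -s⁻¹) '' spectrum k (M : Module.End k V)).Finite := hfin.image _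
  rw [eventually_cofinite]
  refine h2.subset ?_
  intro t ht
  simp only [Set.mem_setOf_eq] at ht
  have ht0 : t ≠ 0 := by
    rintro rfl
    apply ht
    simpa using Function.injective_id
  refine ⟨-t⁻¹, ?_, by simp⟩
  rw [← Module.End.hasEigenvalue_iff_mem_spectrum]
  rw [← LinearMap.ker_eq_bot] at ht
  obtain ⟨v, hv, hv0⟩ := Submodule.exists_mem_ne_zero_of_ne_bot ht
  refine Module.End.hasEigenvalue_of_hasEigenvector (x := v) ⟨?_, hv0⟩
  rw [Module.End.mem_eigenspace_iff]
  have h : v + t • M v = 0 := by simpa using hv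
  have h' : t • M v = -v := eq_neg_of_add_eq_zero_right h
  calc M v = t⁻¹ • (t • M v) := by rw [smul_smul, inv_mul_cancel₀ ht0, one_smul]
    _ = -t⁻¹ • v := by rw [h']; simp

theorem eventually_le_rank {U W V : Type} [AddCommGroup U] [Module k U] [AddCommGroup W]
    [Module k W] [AddCommGroup V] [Module k V] [FiniteDimensional k V] [FiniteDimensional k W]
    (T S : U →ₗ[k] W) (ι : V →ₗ[k] W) (hι : Function.Injective ι) (a b : V →ₗ[k] U)
    (hb : T ∘ₗ b = 0) (hab : T ∘ₗ a + S ∘ₗ b = ι) :
    ∀ᶠ t in (cofinite : Filter k), finrank k V ≤ finrank k (LinearMap.range (T + t • S)) := by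
  obtain ⟨p, hp⟩ := LinearMap.exists_leftInverse_of_injective ι (LinearMap.ker_eq_bot.2 hι)
  have h0 : ∀ᶠ t in (cofinite : Filter k), t ≠ 0 := eventually_cofinite_ne 0
  filter_upwards [eventually_injective (p ∘ₗ S ∘ₗ a), h0] with t ht ht0
  let j : V →ₗ[k] LinearMap.range (T + t • S) := (T + t • S).rangeRestrict ∘ₗ (a + t⁻¹ • b)
  have hj : Function.Injective j := by
    rw [← LinearMap.ker_eq_bot, LinearMap.ker_eq_bot']
    intro v hv
    have h1 : (T + t • S) (a v + t⁻¹ • b v) = 0 := congrArg Subtype.val hv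
    have hb' : T (b v) = 0 := LinearMap.congr_fun hb v
    have hab' : T (a v) + S (b v) = ι v := LinearMap.congr_fun hab v
    have h2 : ι v + t • S (a v) = 0 := by
      rw [← h1, ← hab']
      simp only [LinearMap.add_apply, LinearMap.smul_apply, map_add, map_smul, hb', smul_add,
        smul_smul, mul_inv_cancel₀ ht0, inv_mul_cancel₀ ht0, one_smul, smul_zero, zero_add]
      abel
    apply ht
    have hp' : p (ι v) = v := LinearMap.congr_fun hp v
    have := congrArg p h2
    simpa [hp'] using this
  exact LinearMap.finrank_le_finrank_of_injective hj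

theorem eventually_rank_ge {U W : Type} [AddCommGroup U] [Module k U] [AddCommGroup W]
    [Module k W] [FiniteDimensional k W] (T S : U →ₗ[k] W) :
    ∀ᶠ t in (cofinite : Filter k),
      finrank k (LinearMap.range T) ≤ finrank k (LinearMap.range (T + t • S)) := by
  obtain ⟨a, ha⟩ := T.rangeRestrict.exists_rightInverse_of_surjective T.range_rangeRestrict
  refine eventually_le_rank T S (LinearMap.range T).subtype Subtype.val_injective a 0 (by simp) ?_
  ext v
  have := congrArg Subtype.val (LinearMap.congr_fun ha v)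
  simpa using this

theorem eventually_rank_gt {U W : Type} [AddCommGroup U] [Module k U] [AddCommGroup W]
    [Module k W] [FiniteDimensional k W] (T S : U →ₗ[k] W) (u : U) (hu : T u = 0)
    (hS : S u ∉ LinearMap.range T) :
    ∀ᶠ t in (cofinite : Filter k),
      finrank k (LinearMap.range T) < finrank k (LinearMap.range (T + t • S)) := by
  obtain ⟨a, ha⟩ := T.rangeRestrict.exists_rightInverse_of_surjective T.range_rangeRestrict
  have key := eventually_le_rank (V := LinearMap.range T × k) T S
    ((LinearMap.range T).subtype.coprod (LinearMap.toSpanSingleton k W (S u))) ?_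
    (a ∘ₗ LinearMap.fst k _ _) (LinearMap.toSpanSingleton k U u ∘ₗ LinearMap.snd k _ _) ?_ ?_
  · filter_upwards [key] with t ht
    rw [finrank_prod, finrank_self] at ht
    omega
  · rw [← LinearMap.ker_eq_bot, LinearMap.ker_eq_bot']
    rintro ⟨r, c⟩ h
    have h1 : (r : W) + c • S u = 0 := by simpa using h
    have hc : c = 0 := by
      by_contra hc
      apply hS
      have : S u = -(c⁻¹ • (r : W)) := by
        have h2 : c • S u = -(r : W) := eq_neg_of_add_eq_zero_right h1
        calc S u = c⁻¹ • (c • S u) := by rw [smul_smul, inv_mul_cancel₀ hc, one_smul]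
          _ = _ := by rw [h2, smul_neg]
      rw [this]
      exact Submodule.neg_mem _ (Submodule.smul_mem _ _ r.2)
    subst hc
    have : (r : W) = 0 := by simpa using h1
    exact Prod.ext (Subtype.ext this) rfl
  · ext <;> simp [hu]
  · refine LinearMap.ext ?_
    rintro ⟨r, c⟩
    have := congrArg Subtype.val (LinearMap.congr_fun ha r)
    simp only [LinearMap.comp_apply, LinearMap.id_apply, LinearMap.rangeRestrict,
      LinearMap.codRestrict_apply] at this
    simp [this]

/-- At a point of maximal total rank, the derivative maps kernels into images. -/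
theorem exists_max_rank [Infinite k] {ι : Type} [Fintype ι] {D : Type} [AddCommGroup D]
    [Module k D] (U W : ι → Type) [∀ s, AddCommGroup (U s)] [∀ s, Module k (U s)]
    [∀ s, AddCommGroup (W s)] [∀ s, Module k (W s)] [∀ s, FiniteDimensional k (W s)]
    (A : ∀ s, U s →ₗ[k] W s) (B : ∀ s, D →ₗ[k] U s →ₗ[k] W s) :
    ∃ δ : D, ∀ s (ε : D) (u : U s), (A s + B s δ) u = 0 →
      B s ε u ∈ LinearMap.range (A s + B s δ) := by
  let F : D → ℕ := fun δ => ∑ s, finrank k (LinearMap.range (A s + B s δ))
  have hF : BddAbove (Set.range F) := by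
    refine ⟨∑ s, finrank k (W s), ?_⟩
    rintro _ ⟨δ, rfl⟩
    exact Finset.sum_le_sum fun s _ => Submodule.finrank_le _
  obtain ⟨δ, hδ⟩ : ∃ δ, ∀ δ', F δ' ≤ F δ := by
    have := Nat.sSup_mem (Set.range_nonempty F) hF
    obtain ⟨δ, hδ⟩ := this
    exact ⟨δ, fun δ' => hδ ▸ le_csSup hF ⟨δ', rfl⟩⟩
  refine ⟨δ, fun s ε u hu => ?_⟩
  by_contra hS
  have h1 : ∀ᶠ t in (cofinite : Filter k), ∀ s', finrank k (LinearMap.range (A s' + B s' δ)) ≤
      finrank k (LinearMap.range (A s' + B s' δ + t • B s' ε)) :=
    eventually_all.2 fun s' => eventually_rank_ge _ _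
  obtain ⟨t, ht1, ht2⟩ := (h1.and (eventually_rank_gt (A s + B s δ) (B s ε) u hu hS)).exists
  have h3 : ∀ s', A s' + B s' (δ + t • ε) = A s' + B s' δ + t • B s' ε := fun s' => by
    rw [map_add, map_smul, add_assoc]
  have h4 : F δ < F (δ + t • ε) := by
    refine Finset.sum_lt_sum (fun s' _ => ?_) ⟨s, Finset.mem_univ _, ?_⟩
    · rw [h3]; exact ht1 s'
    · rw [h3]; exact ht2
  exact absurd (hδ _) (not_le.2 h4)

end Pool.Agent.Lib.MP_146384_al
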