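import Pool.Agent.Lib.MP_146384_al.Layer

set_option autoImplicit false

namespace Pool.Agent.Lib.MP_146384_al

open Module Function

variable {k Λ : Type} [Field k] [Ring Λ] [Algebra k Λ]

/-- Data for an algebra with two simple modules. -/
structure R2 (k Λ : Type) [Field k] [Ring Λ] [Algebra k Λ] : Type 1 where
  S1 : FM k Λ
  S2 : FM k Λ
  Q1 : FM k Λ
  Q2 : FM k Λ
  [p1 : Module.Projective Λ Q1.T]
  [p2 : Module.Projective Λ Q2.T]
  all : ∀ S : FM k Λ, IsSimpleModule Λ S.T →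
    Nonempty (S.T ≃ₗ[Λ] S1.T) ∨ Nonempty (S.T ≃ₗ[Λ] S2.T)
  h11 : 0 < hd Q1 S1
  h12 : hd Q1 S2 = 0
  h21 : hd Q2 S1 = 0
  h22 : 0 < hd Q2 S2

attribute [instance] R2.p1 R2.p2

def R2.swap (R : R2 k Λ) : R2 k Λ where
  S1 := R.S2
  S2 := R.S1
  Q1 := R.Q2
  Q2 := R.Q1
  all S h := (R.all S h).symm
  h11 := R.h22
  h12 := R.h21
  h21 := R.h12
  h22 := R.h11

theorem exists_simple_sub (M : FM k Λ) [Nontrivial M.T] :
    ∃ X : Submodule Λ M.T, IsSimpleModule Λ X := by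
  obtain h | ⟨X, hX, -⟩ := eq_bot_or_exists_atom_le (⊤ : Submodule Λ M.T)
  · exact absurd h top_ne_bot
  · exact ⟨X, isSimpleModule_iff_isAtom.2 hX⟩

theorem exists_simple_quot (M : FM k Λ) [Nontrivial M.T] :
    ∃ X : Submodule Λ M.T, IsSimpleModule Λ (M.T ⧸ X) := by
  obtain h | ⟨X, hX, -⟩ := eq_top_or_exists_le_coatom (⊥ : Submodule Λ M.T)
  · exact absurd h bot_ne_top
  · exact ⟨X, isSimpleModule_iff_isCoatom.2 hX⟩

theorem R2.vanish (R : R2 k Λ) (χ : FM k Λ → ℚ)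
    (hc : ∀ M N : FM k Λ, (M.T ≃ₗ[Λ] N.T) → χ M = χ N)
    (ha : ∀ (M : FM k Λ) (X : Submodule Λ M.T), χ M = χ (M.sub X) + χ (M.quot X))
    (h0 : ∀ M : FM k Λ, Subsingleton M.T → χ M = 0) (h1 : χ R.S1 = 0) (h2 : χ R.S2 = 0) :
    ∀ (n : ℕ) (M : FM k Λ), M.dim = n → χ M = 0 := by
  intro n
  induction n using Nat.strong_induction_on with
  | _ n ih =>
  intro M hn
  by_cases hnt : Nontrivial M.T
  · obtain ⟨X, hX⟩ := exists_simple_sub M
    have hb : X ≠ ⊥ := Submodule.nontrivial_iff_ne_bot.1 (IsSimpleModule.nontrivial Λ X)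
    rw [ha M X, ih _ (hn ▸ dim_quot_lt M hb) (M.quot X) rfl]
    obtain ⟨⟨e⟩⟩ | ⟨⟨e⟩⟩ := R.all (M.sub X) hX
    · rw [hc _ _ e, h1, add_zero]
    · rw [hc _ _ e, h2, add_zero]
  · exact h0 M (not_nontrivial_iff_subsingleton.1 hnt)

noncomputable def R2.m1 (R : R2 k Λ) (M : FM k Λ) : ℚ := (hd R.Q1 M : ℚ) / hd R.Q1 R.S1
noncomputable def R2.m2 (R : R2 k Λ) (M : FM k Λ) : ℚ := (hd R.Q2 M : ℚ) / hd R.Q2 R.S2

theorem R2.expand (R : R2 k Λ) (χ : FM k Λ → ℕ)
    (hc : ∀ M N : FM k Λ, (M.T ≃ₗ[Λ] N.T) → χ M = χ N)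
    (ha : ∀ (M : FM k Λ) (X : Submodule Λ M.T), χ M = χ (M.sub X) + χ (M.quot X))
    (h0 : ∀ M : FM k Λ, Subsingleton M.T → χ M = 0) (M : FM k Λ) :
    (χ M : ℚ) = χ R.S1 * R.m1 M + χ R.S2 * R.m2 M := by
  have h11 : (hd R.Q1 R.S1 : ℚ) ≠ 0 := by exact_mod_cast R.h11.ne'
  have h22 : (hd R.Q2 R.S2 : ℚ) ≠ 0 := by exact_mod_cast R.h22.ne'
  have := R.vanish (fun M => (χ M : ℚ) - (χ R.S1 * R.m1 M + χ R.S2 * R.m2 M)) ?_ ?_ ?_ ?_ ?_
    _ M rfl
  · exact sub_eq_zero.1 this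
  · intro M N e
    simp only [R2.m1, R2.m2, hc M N e, hd_congr _ e]
  · intro M X
    simp only [R2.m1, R2.m2]
    rw [ha M X, hd_add R.Q1 M X, hd_add R.Q2 M X]
    push_cast
    ring
  · intro M hM
    simp [R2.m1, R2.m2, h0 M hM, hd_of_subsingleton]
  · simp [R2.m1, R2.m2, R.h21, div_self h11]
  · simp [R2.m1, R2.m2, R.h12, div_self h22]

theorem R2.hd_eq (R : R2 k Λ) (P : FM k Λ) [Module.Projective Λ P.T] (M : FM k Λ) :
    (hd P M : ℚ) = hd P R.S1 * R.m1 M + hd P R.S2 * R.m2 M :=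
  R.expand (hd P) (fun _ _ e => hd_congr P e) (fun M X => hd_add P M X) (fun M _ => hd_of_subsingleton P M) M

theorem R2.gg_eq (R : R2 k Λ) (V : Pres k Λ) (M : FM k Λ) :
    (gg V M : ℚ) = gg V R.S1 * R.m1 M + gg V R.S2 * R.m2 M := by
  unfold gg
  push_cast
  rw [R.hd_eq V.P0 M, R.hd_eq V.P1 M]
  ring

theorem R2.m1_nonneg (R : R2 k Λ) (M : FM k Λ) : 0 ≤ R.m1 M := by unfold R2.m1; positivity
theorem R2.m2_nonneg (R : R2 k Λ) (M : FM k Λ) : 0 ≤ R.m2 M := by unfold R2.m2; positivity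

theorem R2.m_pos (R : R2 k Λ) (M : FM k Λ) [Nontrivial M.T] : 0 < R.m1 M ∨ 0 < R.m2 M := by
  have h := R.expand FM.dim (fun _ _ e => (e.restrictScalars k).finrank_eq)
    (fun M X => by rw [← dim_add M X, add_comm]) (fun M _ => finrank_zero_of_subsingleton) M
  by_contra hc
  push Not at hc
  rw [le_antisymm hc.1 (R.m1_nonneg M), le_antisymm hc.2 (R.m2_nonneg M)] at h
  have := dim_pos M
  simp at h
  omega

def R2.Typ (R : R2 k Λ) (V : Pres k Λ) : Prop := hd V.P0 R.S2 = 0 ∧ hd V.P1 R.S1 = 0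

noncomputable def R2.det (R : R2 k Λ) (V V' : Pres k Λ) : ℤ :=
  gg V' R.S1 * gg V R.S2 - gg V R.S1 * gg V' R.S2

theorem R2.num (R : R2 k Λ) {V V' : Pres k Λ} (hV : R.Typ V) (hV' : R.Typ V')
    (hd : 0 < R.det V V') (N : FM k Λ) [Nontrivial N.T] (h : 0 ≤ gg V' N) : 0 < gg V N := by
  have a0 : (0 : ℚ) ≤ gg V R.S1 := by unfold gg; rw [hV.2]; simp
  have b0 : (gg V R.S2 : ℚ) ≤ 0 := by unfold gg; rw [hV.1]; simp
  have a1 : (0 : ℚ) ≤ gg V' R.S1 := by unfold gg; rw [hV'.2]; simp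
  have b1 : (gg V' R.S2 : ℚ) ≤ 0 := by unfold gg; rw [hV'.1]; simp
  have hd' : (0 : ℚ) < gg V' R.S1 * gg V R.S2 - gg V R.S1 * gg V' R.S2 := by
    unfold R2.det at hd; exact_mod_cast hd
  have h' : (0 : ℚ) ≤ gg V' N := by exact_mod_cast h
  suffices (0 : ℚ) < gg V N by exact_mod_cast this
  rw [R.gg_eq] at h' ⊢
  have m1 := R.m1_nonneg N
  have m2 := R.m2_nonneg N
  have hm := R.m_pos N
  generalize (gg V R.S1 : ℚ) = a at *
  generalize (gg V R.S2 : ℚ) = b at *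
  generalize (gg V' R.S1 : ℚ) = a' at *
  generalize (gg V' R.S2 : ℚ) = b' at *
  generalize R.m1 N = x at *
  generalize R.m2 N = y at *
  have hb' : b' < 0 := by
    refine lt_of_le_of_ne b1 fun h => ?_
    subst h
    nlinarith
  have hx : 0 < x := by
    refine lt_of_le_of_ne m1 fun h => ?_
    subst h
    have hy : 0 < y := by simpa using hm
    nlinarith
  have key : (-b') * (a * x + b * y) = (a' * b - a * b') * x + (-b) * (a' * x + b' * y) := by ring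
  have : 0 < (-b') * (a * x + b * y) := by
    rw [key]
    have := mul_pos hd' hx
    have := mul_nonneg (neg_nonneg.2 b0) h'
    linarith
  exact (pos_iff_pos_of_mul_pos this).1 (by linarith)

theorem R2.det_eq_zero (R : R2 k Λ) {V V' : Pres k Λ} (L : FM k Λ) [Nontrivial L.T]
    (h : gg V L = 0) (h' : gg V' L = 0) : R.det V V' = 0 := by
  have e1 := R.gg_eq V L
  have e2 := R.gg_eq V' L
  rw [h] at e1
  rw [h'] at e2
  suffices ((gg V' R.S1 * gg V R.S2 - gg V R.S1 * gg V' R.S2 : ℤ) : ℚ) = 0 by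
    unfold R2.det; exact_mod_cast this
  push_cast at e1 e2 ⊢
  rcases R.m_pos L with hx | hy
  · apply mul_right_cancel₀ hx.ne'
    linear_combination (gg V' R.S2 : ℚ) * e1 - (gg V R.S2 : ℚ) * e2
  · apply mul_right_cancel₀ hy.ne'
    linear_combination (gg V R.S1 : ℚ) * e2 - (gg V' R.S1 : ℚ) * e1

theorem R2.tt (R : R2 k Λ) {Y V' : Pres k Λ} (hY : R.Typ Y) (hV' : R.Typ V')
    (hd : 0 < R.det Y V') {X : FM k Λ} (hX : EZ V' X) : TT Y X :=
  fun N q hq _ => R.num hY hV' hd N (gg_nonneg (hX.of_surj q hq))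

/-- The top layer has no maps missing: the key lemma of the base case. -/
theorem R2.no_orth (R : R2 k Λ) {V' : Pres k Λ} (hV' : R.Typ V') {L M : FM k Λ} [Nontrivial L.T]
    [Nontrivial M.T] (hLE : EZ V' L) (hLH : HZ V' L)
    (hL : ∀ X : Submodule Λ L.T, EZ V' (L.sub X) → X = ⊥ ∨ X = ⊤) (hM : EZ V' M)
    (hLM : ∀ l : L.T →ₗ[Λ] M.T, l = 0) :
    ∀ (n : ℕ) (Y : Pres k Λ), Y.P0.dim = n → R.Typ Y → (∀ X, EZ V' X → EZ Y X) → EZ V' Y.C →
      0 < R.det Y V' → False := by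
  intro n
  induction n using Nat.strong_induction_on with
  | _ n ih =>
  intro Y hn hT hE hC hdet
  let J : Ideal (Module.End Λ Y.C.T) :=
    { carrier := {φ | ∀ l : Y.C.T →ₗ[Λ] L.T, l ∘ₗ φ = 0}
      add_mem' := fun ha hb l => by rw [LinearMap.comp_add, ha l, hb l, add_zero]
      zero_mem' := fun l => LinearMap.comp_zero l
      smul_mem' := fun c φ h l => h (l ∘ₗ c) }
  by_cases hJ : ∀ φ ∈ J, IsNilpotent φ
  · obtain ⟨π, hπ, hπ0⟩ := exists_of_gg_pos (R.num hT hV' hdet M (gg_nonneg hM))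
    obtain ⟨h, h0, hh⟩ := exists_killed J hJ (Y.desc π hπ) fun h0 =>
      hπ0 (LinearMap.ext fun x => LinearMap.congr_fun h0 (Submodule.Quotient.mk x))
    obtain ⟨K, ⟨hK1, hK2⟩, hmin⟩ := (wellFounded_lt (α := Submodule Λ Y.C.T)).has_min
      {K | EZ V' (Y.C.sub K) ∧ ¬ K ≤ LinearMap.ker h}
      ⟨⊤, hC.of_surj (N := Y.C.sub ⊤) (Submodule.topEquiv.symm.toLinearMap)
        Submodule.topEquiv.symm.surjective,
        fun h1 => h0 (LinearMap.ker_eq_top.1 (top_le_iff.1 h1))⟩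
    have hl : ∀ l : Y.C.T →ₗ[Λ] L.T, l ∘ₗ K.subtype = 0 := by
      intro l
      by_contra hne
      let l' : (Y.C.sub K).T →ₗ[Λ] L.T := l ∘ₗ K.subtype
      have hr : LinearMap.range l' = ⊤ :=
        (hL _ (hK1.of_surj (N := L.sub _) l'.rangeRestrict l'.surjective_rangeRestrict)).resolve_left
          fun h1 => hne (LinearMap.range_eq_bot.1 h1)
      have h2 : EZ V' (Y.C.sub ((LinearMap.ker l').map K.subtype)) :=
        (hK1.ker hLH l').of_surj (Submodule.equivMapOfInjective K.subtype Subtype.val_injective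
          (LinearMap.ker l')).toLinearMap (LinearEquiv.surjective _)
      refine hmin ((LinearMap.ker l').map K.subtype) ⟨h2, fun h3 => hK2 ?_⟩ ?_
      · have h4 : LinearMap.ker l' ≤ LinearMap.ker (h ∘ₗ K.subtype) :=
          fun x hx => h3 ⟨x, hx, rfl⟩
        have h5 := hLM ((LinearMap.ker l').liftQ (h ∘ₗ K.subtype) h4 ∘ₗ
          (l'.quotKerEquivOfSurjective (LinearMap.range_eq_top.1 hr)).symm.toLinearMap)
        intro x hx
        have h6 := LinearMap.congr_fun h5 (l' ⟨x, hx⟩)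
        simpa using h6
      · refine lt_of_le_of_ne (Submodule.map_subtype_le _ _) fun h3 => hne ?_
        refine LinearMap.ext fun x => ?_
        obtain ⟨y, hy, hyx⟩ := h3.ge x.2
        have : y = x := Subtype.ext hyx
        exact this ▸ hy
    have htop := trace_top (hE _ hC) (R.tt hT hV' hdet hK1) (LinearMap.ker (h ∘ₗ K.subtype)) (by
      intro σ hσ
      rintro _ ⟨x, rfl⟩
      have h7 : K.subtype ∘ₗ Y.desc (M := Y.C.sub K) σ hσ ∈ J := fun l => by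
        rw [← LinearMap.comp_assoc, hl l, LinearMap.zero_comp]
      exact LinearMap.congr_fun (hh _ h7) (Submodule.Quotient.mk x))
    exact hK2 fun x hx => (htop.ge (Submodule.mem_top (x := (⟨x, hx⟩ : K))) :)
  · push Not at hJ
    obtain ⟨φ, hφJ, hφ⟩ := hJ
    obtain ⟨φ0, hφ0⟩ := Module.projective_lifting_property (LinearMap.range Y.f).mkQ
      (φ ∘ₗ (LinearMap.range Y.f).mkQ) (Submodule.mkQ_surjective _)
    obtain ⟨φ1, hφ1⟩ := lift_range Y.f (φ0 ∘ₗ Y.f) fun x => by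
      rw [← Submodule.Quotient.mk_eq_zero]
      have := LinearMap.congr_fun hφ0 (Y.f x)
      simp only [LinearMap.comp_apply, Submodule.mkQ_apply] at this
      rw [LinearMap.comp_apply, this,
        (Submodule.Quotient.mk_eq_zero _).2 (LinearMap.mem_range_self Y.f x), map_zero]
    obtain ⟨N, hN0, hN1, hN⟩ := ((LinearMap.eventually_isCompl_ker_pow_range_pow φ0).and
      ((LinearMap.eventually_isCompl_ker_pow_range_pow φ1).and
        (Filter.eventually_ge_atTop 1))).exists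
    have c1 : ∀ m x, Y.f ((φ1 ^ m) x) = (φ0 ^ m) (Y.f x) := by
      intro m
      induction m with
      | zero => intro x; rfl
      | succ m ihm =>
        intro x
        rw [pow_succ, pow_succ, Module.End.mul_apply, Module.End.mul_apply, ihm]
        exact congrArg _ (LinearMap.congr_fun hφ1 x)
    have c0 : ∀ m x, (Submodule.Quotient.mk ((φ0 ^ m) x) : Y.C.T) =
        (φ ^ m) (Submodule.Quotient.mk x) := by
      intro m
      induction m with
      | zero => intro x; rfl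
      | succ m ihm =>
        intro x
        rw [pow_succ, pow_succ, Module.End.mul_apply, Module.End.mul_apply, ihm]
        exact congrArg _ (LinearMap.congr_fun hφ0 x)
    have hA : ∀ x ∈ LinearMap.ker (φ1 ^ N), Y.f x ∈ LinearMap.ker (φ0 ^ N) := fun x hx => by
      rw [LinearMap.mem_ker, ← c1, LinearMap.mem_ker.1 hx, map_zero]
    have hB : ∀ x ∈ LinearMap.range (φ1 ^ N), Y.f x ∈ LinearMap.range (φ0 ^ N) := by
      rintro _ ⟨x, rfl⟩
      exact ⟨_, (c1 N x).symm⟩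
    have hlt : LinearMap.ker (φ0 ^ N) ≠ ⊤ := fun h => hφ ⟨N, LinearMap.ext fun z => by
      obtain ⟨x, rfl⟩ := Submodule.Quotient.mk_surjective _ z
      rw [← c0, LinearMap.ker_eq_top.1 h]
      rfl⟩
    have hH : HZ (Y.res hN1.symm hN0.symm hB) L := by
      intro π hπ
      have h1 : (π ∘ₗ Submodule.projectionOnto _ _ hN0.symm) ∘ₗ Y.f = 0 := by
        rw [LinearMap.comp_assoc, proj_comm hN1.symm hN0.symm hB hA, ← LinearMap.comp_assoc]
        exact (congrArg (· ∘ₗ _) hπ).trans (LinearMap.zero_comp _)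
      refine LinearMap.ext ?_
      rintro ⟨_, x, rfl⟩
      obtain ⟨m, rfl⟩ : ∃ m, N = m + 1 := ⟨N - 1, by omega⟩
      have h2 := LinearMap.congr_fun (hφJ (Y.desc _ h1)) ((φ ^ m) (Submodule.Quotient.mk x))
      rw [LinearMap.comp_apply, ← Module.End.mul_apply, ← pow_succ', ← c0, Pres.desc_mk,
        LinearMap.comp_apply, Submodule.projectionOnto_apply_of_mem_left hN0.symm ⟨x, rfl⟩] at h2
      exact h2
    have hg : gg (Y.res hN1.symm hN0.symm hB) L = 0 :=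
      le_antisymm (gg_nonpos hH) (gg_nonneg ((hE L hLE).res _ _ _))
    have hz := R.det_eq_zero L hg (le_antisymm (gg_nonpos hLH) (gg_nonneg hLE))
    refine ih _ (hn ▸ dim_sub_lt Y.P0 hlt) (Y.res hN1 hN0 hA) rfl ⟨?_, ?_⟩
      (fun X hX => (hE X hX).res _ _ _) (hC.res_C _ _ _ hB) ?_
    · have := hd_compl Y.P0 R.S2 hN0
      rw [hT.1] at this
      exact (Nat.add_eq_zero_iff.1 this.symm).1
    · have := hd_compl Y.P1 R.S1 hN1
      rw [hT.2] at this
      exact (Nat.add_eq_zero_iff.1 this.symm).1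
    · unfold R2.det at hdet hz ⊢
      rw [gg_res hN1 hN0 hA hB R.S1, gg_res hN1 hN0 hA hB R.S2] at hdet
      linarith

theorem R2.base (R : R2 k Λ) {V V' : Pres k Λ} (hT : R.Typ V) (hT' : R.Typ V')
    (hdet : 0 < R.det V V') (hV : EZ V V.C) (hV'V : EZ V' V.C) {M : FM k Λ} (hM : IsBrick M)
    (h1 : TT V M) (h2 : ¬ TT V' M) : M.dim ≤ V.P0.dim := by
  have hME : EZ V' M := TT.ez hV'V _ M rfl h1
  have hex : ∃ n, ∃ (L : FM k Λ) (q : M.T →ₗ[Λ] L.T), Surjective q ∧ Nontrivial L.T ∧ HZ V' L ∧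
      L.dim = n := by
    unfold TT at h2
    push Not at h2
    obtain ⟨N, q, hq, hN, hg⟩ := h2
    exact ⟨_, N, q, hq, hN, HZ_of_gg (hME.of_surj q hq) hg, rfl⟩
  classical
  obtain ⟨L, q, hq, hL, hLH, hdim⟩ := Nat.find_spec hex
  have hLE : EZ V' L := hME.of_surj q hq
  have hs : ∀ X : Submodule Λ L.T, EZ V' (L.sub X) → X = ⊥ ∨ X = ⊤ := by
    intro X hX
    by_contra hc
    push Not at hc
    refine Nat.find_min hex (hdim ▸ dim_quot_lt L hc.1) ⟨L.quot X, X.mkQ ∘ₗ q,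
      X.mkQ_surjective.comp hq, Submodule.Quotient.nontrivial_iff.2 hc.2,
      HZ.quot X hX fun π hπ => ?_, rfl⟩
    rw [hLH π hπ, LinearMap.range_zero]
    exact bot_le
  have := hM.1
  obtain ⟨l, hl⟩ : ∃ l : L.T →ₗ[Λ] M.T, l ≠ 0 := by
    by_contra hc
    push Not at hc
    exact R.no_orth hT' hLE hLH hs hME hc _ V rfl hT
      (fun X hX => TT.ez hV _ X rfl (R.tt hT hT' hdet hX)) hV'V hdet
  have hb := hM.2 (l ∘ₗ q) fun h => hl (LinearMap.ext fun x => by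
    obtain ⟨y, rfl⟩ := hq x
    exact LinearMap.congr_fun h y)
  have h3 : M.dim ≤ L.dim := dim_le_of_inj q (Injective.of_comp (f := l) hb.1)
  obtain ⟨π, hπ, hπ0⟩ := exists_of_gg_pos (h1 L q hq hL)
  have h4 := (hs _ (hV'V.range π hπ)).resolve_left fun h => hπ0 (LinearMap.range_eq_bot.1 h)
  exact h3.trans (dim_le_of_surj π (LinearMap.range_eq_top.1 h4))

theorem R2.farey [Infinite k] (hBD : BD k Λ) (R : R2 k Λ) : ∀ (e : ℕ) (V V' : Pres k Λ),
    ee V' V.C = e → R.Typ V → R.Typ V' → 0 < R.det V V' → EZ V V.C → EZ V' V'.C → EZ V V'.C →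
    ∃ b, ∀ M : FM k Λ, IsBrick M → TT V M → ¬ TT V' M → M.dim ≤ b := by
  intro e
  induction e using Nat.strong_induction_on with
  | _ e ih =>
  intro V V' he hT hT' hdet hV hV' hVV'
  by_cases h0 : EZ V' V.C
  · exact ⟨_, fun M hM h1 h2 => R.base hT hT' hdet hV h0 hM h1 h2⟩
  obtain ⟨δ, hδ⟩ := exists_rigid_ext hBD V V' hV hV' hVV'
  have hT'' : R.Typ (V.ext V' δ) :=
    ⟨(hd_prod _ _ _).trans (by rw [hT.1, hT'.1]), (hd_prod _ _ _).trans (by rw [hT.2, hT'.2])⟩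
  obtain ⟨b1, hb1⟩ := ih _ (he ▸ ee_lt_left hV hδ h0) V (V.ext V' δ) rfl hT hT''
    (by unfold R2.det at hdet ⊢; rw [gg_ext, gg_ext]; linarith) hV hδ (hV.cext δ hVV')
  obtain ⟨b2, hb2⟩ := ih _ (he ▸ ee_lt_right hV' hδ h0) (V.ext V' δ) V' rfl hT'' hT'
    (by unfold R2.det at hdet ⊢; rw [gg_ext, gg_ext]; linarith) hδ hV' (hVV'.ext_pres δ hV')
  refine ⟨max b1 b2, fun M hM h1 h2 => ?_⟩
  by_cases h3 : TT (V.ext V' δ) M
  · exact (hb2 M hM h3 h2).trans (le_max_right _ _)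
  · exact (hb1 M hM h1 h3).trans (le_max_left _ _)

abbrev FM.zero (k Λ : Type) [Field k] [Ring Λ] [Algebra k Λ] : FM k Λ := { T := PUnit }

abbrev Pres.pos (P : FM k Λ) [Module.Projective Λ P.T] : Pres k Λ :=
  { P1 := FM.zero k Λ, P0 := P, f := 0 }

abbrev Pres.neg (P : FM k Λ) [Module.Projective Λ P.T] : Pres k Λ :=
  { P1 := P, P0 := FM.zero k Λ, f := 0 }

theorem hd_zero (M : FM k Λ) : hd (FM.zero k Λ) M = 0 :=
  hd_eq_zero_iff.2 fun π => LinearMap.ext fun x => by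
    rw [Subsingleton.elim x 0, map_zero, map_zero]

theorem EZ_pos (P : FM k Λ) [Module.Projective Λ P.T] (M : FM k Λ) : EZ (Pres.pos P) M :=
  fun ψ => ⟨0, LinearMap.ext fun x => by rw [Subsingleton.elim x 0, map_zero, map_zero]⟩

theorem EZ_neg (V : Pres k Λ) (P : FM k Λ) [Module.Projective Λ P.T] : EZ V (Pres.neg P).C :=
  have : Subsingleton (Pres.neg P).C.T := (Submodule.Quotient.mk_surjective _).subsingleton
  EZ.of_subsingleton _ _

theorem R2.half [Infinite k] (hBD : BD k Λ) (R : R2 k Λ) :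
    ∃ b, ∀ M : FM k Λ, IsBrick M → TT (Pres.pos R.Q1) M → M.dim ≤ b := by
  obtain ⟨b, hb⟩ := R.farey hBD _ (Pres.pos R.Q1) (Pres.neg R.Q2) rfl ⟨R.h12, hd_zero _⟩
    ⟨hd_zero _, R.h21⟩ (by
      have h1 := R.h11
      have h2 := R.h22
      simp only [R2.det, gg, hd_zero, R.h12, R.h21]
      have := mul_pos h1 h2
      push_cast
      simp only [sub_zero, zero_sub, mul_neg, neg_neg, mul_zero]
      exact_mod_cast this) (EZ_pos _ _) (EZ_neg _ _) (EZ_pos _ _)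
  refine ⟨b, fun M hM h => hb M hM h fun h' => ?_⟩
  have := h' M LinearMap.id surjective_id hM.1
  simp only [gg, hd_zero] at this
  omega

theorem brick_le {M S : FM k Λ} (hM : IsBrick M) (q : M.T →ₗ[Λ] S.T) (hq : Surjective q)
    (i : S.T →ₗ[Λ] M.T) (hi : i ≠ 0) : M.dim ≤ S.dim := by
  have hb := hM.2 (i ∘ₗ q) fun h => hi (LinearMap.ext fun x => by
    obtain ⟨y, rfl⟩ := hq x
    exact LinearMap.congr_fun h y)
  exact dim_le_of_inj q (Injective.of_comp (f := i) hb.1)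

theorem R2.quot_S2 (R : R2 k Λ) {M : FM k Λ} (h : ¬ TT (Pres.pos R.Q1) M) :
    ∃ q : M.T →ₗ[Λ] R.S2.T, Surjective q := by
  unfold TT at h
  push Not at h
  obtain ⟨N, q, hq, hN, hg⟩ := h
  obtain ⟨X, hX⟩ := exists_simple_quot N
  have h1 : hd R.Q1 (N.quot X) = 0 := by
    simp only [gg, hd_zero] at hg
    have := hd_add R.Q1 N X
    omega
  obtain ⟨⟨e⟩⟩ | ⟨⟨e⟩⟩ := R.all (N.quot X) hX
  · rw [hd_congr _ e] at h1
    exact absurd h1 R.h11.ne'
  · exact ⟨e.toLinearMap ∘ₗ X.mkQ ∘ₗ q, e.surjective.comp (X.mkQ_surjective.comp hq)⟩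

theorem sub_ne_zero {M S : FM k Λ} {X : Submodule Λ M.T} (hX : IsSimpleModule Λ X)
    (e : X ≃ₗ[Λ] S.T) : X.subtype ∘ₗ e.symm.toLinearMap ≠ 0 := by
  intro h
  have := IsSimpleModule.nontrivial Λ X
  obtain ⟨x, hx⟩ := exists_ne (0 : X)
  have := LinearMap.congr_fun h (e x)
  simp only [LinearMap.comp_apply, LinearEquiv.coe_coe, LinearEquiv.symm_apply_apply,
    Submodule.subtype_apply, LinearMap.zero_apply] at this
  exact hx (Subtype.ext this)

theorem R2.bounded [Infinite k] (hBD : BD k Λ) (R : R2 k Λ) :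
    ∃ b, ∀ M : FM k Λ, IsBrick M → M.dim ≤ b := by
  obtain ⟨b1, hb1⟩ := R.half hBD
  obtain ⟨b2, hb2⟩ := R.swap.half hBD
  refine ⟨b1 + b2 + R.S1.dim + R.S2.dim, fun M hM => ?_⟩
  by_cases h1 : TT (Pres.pos R.Q1) M
  · have := hb1 M hM h1
    omega
  by_cases h2 : TT (Pres.pos R.swap.Q1) M
  · have := hb2 M hM h2
    omega
  obtain ⟨q2, hq2⟩ := R.quot_S2 h1
  obtain ⟨q1, hq1⟩ := R.swap.quot_S2 h2
  have := hM.1
  obtain ⟨X, hX⟩ := exists_simple_sub M
  obtain ⟨⟨e⟩⟩ | ⟨⟨e⟩⟩ := R.all (M.sub X) hX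
  · have := brick_le (S := R.S1) hM q1 hq1 _ (sub_ne_zero hX e)
    omega
  · have := brick_le hM q2 hq2 _ (sub_ne_zero hX e)
    omega

end Pool.Agent.Lib.MP_146384_al
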